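import Pool.Agent.Lib.MP_2a9317_an.Phase

set_option autoImplicit false

namespace Pool.Agent.Lib.MP_2a9317_an

open MeasureTheory Matrix
open scoped ContDiff

/-! ### The family of phases -/

/-- first sign of phase `j` -/
noncomputable def sa (j : ℕ) : ℝ := if j = 0 ∨ j = 1 then 1 else -1

/-- second sign of phase `j` -/
noncomputable def sb (j : ℕ) : ℝ := if j = 0 ∨ j = 2 then 1 else -1

lemma sa_sign (j : ℕ) : IsSign (sa j) := by
  unfold sa IsSign; split_ifs <;> simp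

lemma sb_sign (j : ℕ) : IsSign (sb j) := by
  unfold sb IsSign; split_ifs <;> simp

/-- the microstructure -/
noncomputable def chi (k : ℕ) (hk : 4 ≤ k) (p : ℝ × ℝ) : Fin k :=
  if sg p.1 = 1 then (if sg p.2 = 1 then ⟨0, by omega⟩ else ⟨1, by omega⟩)
  else (if sg p.2 = 1 then ⟨2, by omega⟩ else ⟨3, by omega⟩)

lemma chi_partition (k : ℕ) (hk : 4 ≤ k) : IsPartition (chi k hk) := by
  constructor
  · have h1 : MeasurableSet {p : ℝ × ℝ | sg p.1 = 1} :=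
      (measurable_sg.comp measurable_fst) (measurableSet_singleton 1)
    have h2 : MeasurableSet {p : ℝ × ℝ | sg p.2 = 1} :=
      (measurable_sg.comp measurable_snd) (measurableSet_singleton 1)
    exact Measurable.ite h1 (Measurable.ite h2 measurable_const measurable_const)
      (Measurable.ite h2 measurable_const measurable_const)
  · intro x y
    simp only [chi, sg_per, and_self]

lemma chi_spec (k : ℕ) (hk : 4 ≤ k) (p : ℝ × ℝ) :
    sa (chi k hk p).val = sg p.1 ∧ sb (chi k hk p).val = sg p.2 ∧ (chi k hk p).val - 3 = 0 := by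
  unfold chi sa sb
  rcases sg_eq p.1 with h1 | h1 <;> rcases sg_eq p.2 with h2 | h2 <;> rw [h1, h2] <;> norm_num

/-! ### The affine problem, n = 1 -/

/-- vectors of `S_1 ⊕ ℝ` -/
def vec3 (α β γ : ℝ) : Ent 1 ⊕ Unit → ℝ := Sum.elim (fun q => if q.1 = 0 then α else β) (fun _ => γ)

/-- gradients of scalar potentials -/
def pt (x y : ℝ) : Ent 1 → ℝ := fun q => if q.1 = 0 then x else y

/-- the matrix of the phase `(a, b)` -/
noncomputable def KK (a b : ℝ) : Matrix (Ent 1 ⊕ Unit) (Ent 1 ⊕ Unit) ℝ := fun i j =>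
  (1 + ee * (1 + a)) * (vec3 1 (-(1 / 2)) 0 i * vec3 1 (-(1 / 2)) 0 j)
  + (3 / 4) * (vec3 0 1 0 i * vec3 0 1 0 j)
  + ee * (1 + b) * (vec3 (-(1 / 2)) 1 0 i * vec3 (-(1 / 2)) 1 0 j)
  + ee * (1 - a * b) * (vec3 (1 / 2) (1 / 2) 1 i * vec3 (1 / 2) (1 / 2) 1 j)
  + kap a b * (vec3 0 0 1 i * vec3 0 0 1 j)

lemma KK_quad (a b : ℝ) (v : Ent 1 ⊕ Unit → ℝ) :
    v ⬝ᵥ (KK a b *ᵥ v) = WW a b (v (Sum.inl (0, 0))) (v (Sum.inl (1, 0))) (v (Sum.inr ())) := by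
  simp only [dotProduct, mulVec, KK, vec3, Fintype.sum_sum_type, Fintype.sum_prod_type,
    Fin.sum_univ_two, Finset.univ_unique, Finset.sum_singleton, Sum.elim_inl,
    Sum.elim_inr, if_true, WW, NN]
  simp
  ring

lemma KK_symm (a b : ℝ) : (KK a b).IsSymm := by
  ext i j
  simp only [Matrix.transpose_apply, KK]
  ring

/-- the `k` phases -/
noncomputable def KF (k : ℕ) (j : Fin k) : Matrix (Ent 1 ⊕ Unit) (Ent 1 ⊕ Unit) ℝ :=
  KK (sa j.val) (sb j.val) + ((j.val - 3 : ℕ) : ℝ) • (1 : Matrix (Ent 1 ⊕ Unit) (Ent 1 ⊕ Unit) ℝ)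

lemma KF_quad (k : ℕ) (j : Fin k) (v : Ent 1 ⊕ Unit → ℝ) :
    v ⬝ᵥ (KF k j *ᵥ v) = WW (sa j.val) (sb j.val) (v (Sum.inl (0, 0))) (v (Sum.inl (1, 0)))
      (v (Sum.inr ())) + ((j.val - 3 : ℕ) : ℝ) * (v ⬝ᵥ v) := by
  rw [KF, add_mulVec, dotProduct_add, KK_quad, smul_mulVec, one_mulVec, dotProduct_smul,
    smul_eq_mul]

lemma WW_pos {a b : ℝ} (ha : IsSign a) (hb : IsSign b) (x y z : ℝ)
    (h : ¬ (x = 0 ∧ y = 0 ∧ z = 0)) : 0 < WW a b x y z := by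
  have hE := ee_pos.le
  have h1 : 0 ≤ 1 + a := by rcases ha with rfl | rfl <;> norm_num
  have h2 : 0 ≤ 1 + b := by rcases hb with rfl | rfl <;> norm_num
  have h3 : 0 ≤ 1 - a * b := by
    rcases ha with rfl | rfl <;> rcases hb with rfl | rfl <;> norm_num
  have hk := (kap_bounds ha hb).1
  have t1 : 0 ≤ ee * (1 + a) * (x - y / 2) ^ 2 := by positivity
  have t2 : 0 ≤ ee * (1 + b) * (y - x / 2) ^ 2 := by positivity
  have t3 : 0 ≤ ee * (1 - a * b) * ((x + y) / 2 + z) ^ 2 := by positivity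
  unfold WW
  by_cases hxy : x = 0 ∧ y = 0
  · have hz : z ≠ 0 := fun hz => h ⟨hxy.1, hxy.2, hz⟩
    have : 0 < kap a b * z ^ 2 := by positivity
    have := NN_nonneg x y
    linarith
  · have := NN_pos x y hxy
    have : 0 ≤ kap a b * z ^ 2 := by
      have : 0 ≤ kap a b := by linarith
      positivity
    linarith

lemma dot_self_nonneg {ι : Type} [Fintype ι] (v : ι → ℝ) : 0 ≤ v ⬝ᵥ v :=
  Finset.sum_nonneg fun i _ => mul_self_nonneg (v i)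

lemma KF_posDef (k : ℕ) (j : Fin k) : (KF k j).PosDef := by
  refine Matrix.PosDef.of_dotProduct_mulVec_pos ?_ ?_
  · rw [Matrix.IsHermitian]
    ext i l
    simp only [Matrix.conjTranspose_apply, star_trivial]
    have h1 := congrFun (congrFun (KK_symm (sa j.val) (sb j.val)) i) l
    rw [Matrix.transpose_apply] at h1
    simp only [KF, Matrix.add_apply, Matrix.smul_apply, h1, Matrix.one_apply, eq_comm]
  · intro v hv
    rw [star_trivial, KF_quad]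
    have h1 : 0 ≤ ((j.val - 3 : ℕ) : ℝ) * (v ⬝ᵥ v) := mul_nonneg (Nat.cast_nonneg _) (dot_self_nonneg v)
    have h2 := WW_pos (sa_sign j.val) (sb_sign j.val) (v (Sum.inl (0, 0))) (v (Sum.inl (1, 0)))
      (v (Sum.inr ())) ?_
    · linarith
    · rintro ⟨h3, h4, h5⟩
      apply hv
      ext i
      rcases i with ⟨i, l⟩ | u
      · have hl : l = 0 := Subsingleton.elim _ _
        subst hl
        fin_cases i
        · exact h3
        · exact h4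
      · exact h5

lemma KF_diag0 (k : ℕ) (j : Fin k) : KF k j (Sum.inl (0, 0)) (Sum.inl (0, 0))
    = 1 + ee * ((1 + sa j.val) + (1 + sb j.val) / 4 + (1 - sa j.val * sb j.val) / 4)
      + ((j.val - 3 : ℕ) : ℝ) := by
  simp only [KF, KK, Matrix.add_apply, Matrix.smul_apply, Matrix.one_apply, vec3, Sum.elim_inl]
  simp
  ring

lemma KF_diag1 (k : ℕ) (j : Fin k) : KF k j (Sum.inl (1, 0)) (Sum.inl (1, 0))
    = 1 + ee * ((1 + sa j.val) / 4 + (1 + sb j.val) + (1 - sa j.val * sb j.val) / 4)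
      + ((j.val - 3 : ℕ) : ℝ) := by
  simp only [KF, KK, Matrix.add_apply, Matrix.smul_apply, Matrix.one_apply, vec3, Sum.elim_inl]
  simp
  ring

lemma nat_ne_small (m : ℕ) (t : ℝ) (h0 : 0 < t) (h1 : t < 1) : (m : ℝ) ≠ t := by
  intro h
  rcases Nat.eq_zero_or_pos m with hm | hm
  · rw [hm] at h; norm_num at h; linarith
  · have : (1 : ℝ) ≤ m := by exact_mod_cast hm
    linarith

lemma signs_inj (i j : ℕ)
    (h0 : ee * ((1 + sa i) + (1 + sb i) / 4 + (1 - sa i * sb i) / 4) + ((i - 3 : ℕ) : ℝ)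
      = ee * ((1 + sa j) + (1 + sb j) / 4 + (1 - sa j * sb j) / 4) + ((j - 3 : ℕ) : ℝ))
    (h1 : ee * ((1 + sa i) / 4 + (1 + sb i) + (1 - sa i * sb i) / 4) + ((i - 3 : ℕ) : ℝ)
      = ee * ((1 + sa j) / 4 + (1 + sb j) + (1 - sa j * sb j) / 4) + ((j - 3 : ℕ) : ℝ)) :
    i = j := by
  have s0 : sa 0 = 1 ∧ sb 0 = 1 := by unfold sa sb; norm_num
  have s1 : sa 1 = 1 ∧ sb 1 = -1 := by unfold sa sb; norm_num
  have s2 : sa 2 = -1 ∧ sb 2 = 1 := by unfold sa sb; norm_num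
  have s3 : ∀ l, 3 ≤ l → sa l = -1 ∧ sb l = -1 := by
    intro l hl
    unfold sa sb
    constructor
    · rw [if_neg]; omega
    · rw [if_neg]; omega
  have hE : ee = 1 / 10 ^ 9 := rfl
  have cases4 : ∀ l : ℕ, l = 0 ∨ l = 1 ∨ l = 2 ∨ 3 ≤ l := by intro l; omega
  have nn := nat_ne_small
  rcases cases4 i with rfl | rfl | rfl | hi <;> rcases cases4 j with rfl | rfl | rfl | hj
  · rfl
  · exfalso; rw [s0.1, s0.2, s1.1, s1.2, hE] at h1; norm_num at h1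
  · exfalso; rw [s0.1, s0.2, s2.1, s2.2, hE] at h0; norm_num at h0
  · exfalso
    rw [s0.1, s0.2, (s3 j hj).1, (s3 j hj).2] at h0
    apply nn (j - 3) (ee * (5 / 2)) (by rw [hE]; norm_num) (by rw [hE]; norm_num)
    norm_num at h0
    linarith
  · exfalso; rw [s0.1, s0.2, s1.1, s1.2, hE] at h1; norm_num at h1
  · rfl
  · exfalso; rw [s1.1, s1.2, s2.1, s2.2, hE] at h0; norm_num at h0
  · exfalso
    rw [s1.1, s1.2, (s3 j hj).1, (s3 j hj).2] at h0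
    apply nn (j - 3) (ee * (5 / 2)) (by rw [hE]; norm_num) (by rw [hE]; norm_num)
    norm_num at h0
    linarith
  · exfalso; rw [s0.1, s0.2, s2.1, s2.2, hE] at h0; norm_num at h0
  · exfalso; rw [s1.1, s1.2, s2.1, s2.2, hE] at h0; norm_num at h0
  · rfl
  · exfalso
    rw [s2.1, s2.2, (s3 j hj).1, (s3 j hj).2] at h1
    apply nn (j - 3) (ee * (5 / 2)) (by rw [hE]; norm_num) (by rw [hE]; norm_num)
    norm_num at h1
    linarith
  · exfalso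
    rw [s0.1, s0.2, (s3 i hi).1, (s3 i hi).2] at h0
    apply nn (i - 3) (ee * (5 / 2)) (by rw [hE]; norm_num) (by rw [hE]; norm_num)
    norm_num at h0
    linarith
  · exfalso
    rw [s1.1, s1.2, (s3 i hi).1, (s3 i hi).2] at h0
    apply nn (i - 3) (ee * (5 / 2)) (by rw [hE]; norm_num) (by rw [hE]; norm_num)
    norm_num at h0
    linarith
  · exfalso
    rw [s2.1, s2.2, (s3 i hi).1, (s3 i hi).2] at h1
    apply nn (i - 3) (ee * (5 / 2)) (by rw [hE]; norm_num) (by rw [hE]; norm_num)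
    norm_num at h1
    linarith
  · rw [(s3 i hi).1, (s3 i hi).2, (s3 j hj).1, (s3 j hj).2] at h0
    have h2 : ((i - 3 : ℕ) : ℝ) = ((j - 3 : ℕ) : ℝ) := by linarith
    have h3 : i - 3 = j - 3 := by exact_mod_cast h2
    omega

lemma KF_injective (k : ℕ) : Function.Injective (KF k) := by
  intro i j hij
  apply Fin.ext
  apply signs_inj
  · have h := KF_diag0 k i
    rw [hij, KF_diag0 k j] at h
    linarith
  · have h := KF_diag1 k i
    rw [hij, KF_diag1 k j] at h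
    linarith

/-! ### Lower bound for laminates -/

/-- the energy of the three test fields -/
noncomputable def affTE (M : Matrix (Ent 1 ⊕ Unit) (Ent 1 ⊕ Unit) ℝ)
    (x1 y1 x2 y2 x3 y3 : ℝ) : ℝ :=
  TE (fun x y => affW M (pt x y)) (fun x y => affW M (pt x y)) (fun x y => affW M (pt x y))
    x1 y1 x2 y2 x3 y3

/-- the invariant of laminates -/
def AffInv (M : Matrix (Ent 1 ⊕ Unit) (Ent 1 ⊕ Unit) ℝ) : Prop :=
  ∃ r s w e : ℝ, |r| ≤ 1 ∧ |s| ≤ 1 ∧ |w| ≤ 1 ∧ 3 / 4 * gg r s w ≤ e ∧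
    ∀ x1 y1 x2 y2 x3 y3 : ℝ, BB + Low r s w e x1 y1 x2 y2 x3 y3 ≤ affTE M x1 y1 x2 y2 x3 y3

lemma affW_KF (k : ℕ) (j : Fin k) (x y : ℝ) :
    WW (sa j.val) (sb j.val) x y 1 ≤ affW (KF k j) (pt x y) := by
  rw [affW, KF_quad]
  have h1 : 0 ≤ ((j.val - 3 : ℕ) : ℝ) * (aff (pt x y) ⬝ᵥ aff (pt x y)) :=
    mul_nonneg (Nat.cast_nonneg _) (dot_self_nonneg _)
  have h2 : aff (pt x y) (Sum.inl (0, 0)) = x := rfl
  have h3 : aff (pt x y) (Sum.inl (1, 0)) = y := rfl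
  have h4 : aff (pt x y) (Sum.inr ()) = 1 := rfl
  rw [h2, h3, h4]
  linarith

lemma TE_mono {w1 w2 w3 v1 v2 v3 : ℝ → ℝ → ℝ} (h1 : ∀ x y, w1 x y ≤ v1 x y)
    (h2 : ∀ x y, w2 x y ≤ v2 x y) (h3 : ∀ x y, w3 x y ≤ v3 x y) (x1 y1 x2 y2 x3 y3 : ℝ) :
    TE w1 w2 w3 x1 y1 x2 y2 x3 y3 ≤ TE v1 v2 v3 x1 y1 x2 y2 x3 y3 := by
  unfold TE
  have hL := Lam_pos.le
  have a1 := mul_le_mul_of_nonneg_left (h1 (-(4 / 3) + ee + x1) (-(2 / 3) + y1)) hL
  have a2 := mul_le_mul_of_nonneg_left (h2 (-(2 / 3) + x2) (-(4 / 3) + ee + y2)) hL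
  have a3 := h3 (-ee + x3) (-ee + y3)
  linarith

lemma affInv_phase (k : ℕ) (j : Fin k) : AffInv (KF k j) := by
  refine ⟨sa j.val, sb j.val, sa j.val * sb j.val, 0, sign_abs (sa_sign _), sign_abs (sb_sign _),
    sign_mul_abs (sa_sign _) (sb_sign _), gg_phase (sa_sign _) (sb_sign _), ?_⟩
  intro x1 y1 x2 y2 x3 y3
  refine (low_le_phase (sa_sign _) (sb_sign _) x1 y1 x2 y2 x3 y3).trans ?_
  exact TE_mono (fun x y => affW_KF k j x y) (fun x y => affW_KF k j x y)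
    (fun x y => affW_KF k j x y) _ _ _ _ _ _

lemma abs_comb {θ a b : ℝ} (h0 : 0 ≤ θ) (h1 : θ ≤ 1) (ha : |a| ≤ 1) (hb : |b| ≤ 1) :
    |θ * a + (1 - θ) * b| ≤ 1 := by
  rw [abs_le] at ha hb ⊢
  constructor <;> nlinarith [ha.1, ha.2, hb.1, hb.2]

lemma exc_ge {θ r1 s1 w1 e1 r2 s2 w2 e2 x y : ℝ} (h0 : 0 ≤ θ) (h1 : θ ≤ 1)
    (hr1 : |r1| ≤ 1) (hs1 : |s1| ≤ 1) (hw1 : |w1| ≤ 1)
    (hr2 : |r2| ≤ 1) (hs2 : |s2| ≤ 1) (hw2 : |w2| ≤ 1) (hN : 0 < NN x y)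
    (he1 : 3 / 4 * gg r1 s1 w1 ≤ e1) (he2 : 3 / 4 * gg r2 s2 w2 ≤ e2) :
    3 / 4 * gg (θ * r1 + (1 - θ) * r2) (θ * s1 + (1 - θ) * s2) (θ * w1 + (1 - θ) * w2)
      ≤ exc θ r1 s1 w1 e1 r2 s2 w2 e2 x y := by
  have h := gg_layer θ r1 s1 w1 r2 s2 w2 x y h0 h1 hr1 hs1 hw1 hr2 hs2 hw2 hN
  have h2 : x ^ 2 - x * y + y ^ 2 = NN x y := rfl
  rw [h2] at h
  unfold exc
  have a1 := mul_le_mul_of_nonneg_left he1 h0
  have a2 := mul_le_mul_of_nonneg_left he2 (sub_nonneg.2 h1)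
  linarith

lemma affInv_layer {A B M : Matrix (Ent 1 ⊕ Unit) (Ent 1 ⊕ Unit) ℝ} {θ : ℝ} {ξ : Fin 2 → ℝ}
    (hA : AffInv A) (hB : AffInv B) (h0 : 0 < θ) (h1 : θ < 1) (hξ : ξ ≠ 0)
    (hM : AffLayer A B θ ξ M) : AffInv M := by
  obtain ⟨r1, s1, w1, e1, hr1, hs1, hw1, he1, H1⟩ := hA
  obtain ⟨r2, s2, w2, e2, hr2, hs2, hw2, he2, H2⟩ := hB
  have hN : 0 < NN (ξ 0) (ξ 1) := by
    apply NN_pos
    rintro ⟨h2, h3⟩
    apply hξ
    ext i
    fin_cases i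
    · exact h2
    · exact h3
  refine ⟨θ * r1 + (1 - θ) * r2, θ * s1 + (1 - θ) * s2, θ * w1 + (1 - θ) * w2,
    exc θ r1 s1 w1 e1 r2 s2 w2 e2 (ξ 0) (ξ 1), abs_comb h0.le h1.le hr1 hr2,
    abs_comb h0.le h1.le hs1 hs2, abs_comb h0.le h1.le hw1 hw2,
    exc_ge h0.le h1.le hr1 hs1 hw1 hr2 hs2 hw2 hN he1 he2, ?_⟩
  intro x1 y1 x2 y2 x3 y3
  -- approximate minimisers
  have happ : ∀ x y η : ℝ, 0 < η → ∃ t : ℝ,
      θ * affW A (pt (x + (1 - θ) * (ξ 0 * t)) (y + (1 - θ) * (ξ 1 * t)))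
      + (1 - θ) * affW B (pt (x - θ * (ξ 0 * t)) (y - θ * (ξ 1 * t))) < affW M (pt x y) + η := by
    intro x y η hη
    have h2 := hM.2 (pt x y)
    have h5 : (⨅ a : Fin 1 → ℝ, (θ * affW A (pt x y + (1 - θ) • tens ξ a)
        + (1 - θ) * affW B (pt x y - θ • tens ξ a))) < affW M (pt x y) + η := by
      rw [← h2]; linarith
    obtain ⟨a, ha⟩ := exists_lt_of_ciInf_lt h5
    refine ⟨a 0, ?_⟩
    have e3 : pt x y + (1 - θ) • tens ξ a
        = pt (x + (1 - θ) * (ξ 0 * a 0)) (y + (1 - θ) * (ξ 1 * a 0)) := by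
      ext ⟨i, l⟩
      have hl : l = 0 := Subsingleton.elim _ _
      subst hl
      fin_cases i <;> simp [pt, tens]
    have e4 : pt x y - θ • tens ξ a
        = pt (x - θ * (ξ 0 * a 0)) (y - θ * (ξ 1 * a 0)) := by
      ext ⟨i, l⟩
      have hl : l = 0 := Subsingleton.elim _ _
      subst hl
      fin_cases i <;> simp [pt, tens]
    rw [e3, e4] at ha
    exact ha
  apply le_of_forall_pos_le_add
  intro η hη
  have hη' : 0 < η / (2 * Lam + 1) := by have := Lam_pos; positivity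
  obtain ⟨t1, ht1⟩ := happ (-(4 / 3) + ee + x1) (-(2 / 3) + y1) _ hη'
  obtain ⟨t2, ht2⟩ := happ (-(2 / 3) + x2) (-(4 / 3) + ee + y2) _ hη'
  obtain ⟨t3, ht3⟩ := happ (-ee + x3) (-ee + y3) _ hη'
  have hstep := low_step θ r1 s1 w1 e1 r2 s2 w2 e2 (ξ 0) (ξ 1) x1 y1 x2 y2 x3 y3 t1 t2 t3
    h0.le h1.le hN
  have g1 := mul_le_mul_of_nonneg_left (H1 (x1 + (1 - θ) * (ξ 0 * t1)) (y1 + (1 - θ) * (ξ 1 * t1))
    (x2 + (1 - θ) * (ξ 0 * t2)) (y2 + (1 - θ) * (ξ 1 * t2))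
    (x3 + (1 - θ) * (ξ 0 * t3)) (y3 + (1 - θ) * (ξ 1 * t3))) h0.le
  have g2 := mul_le_mul_of_nonneg_left (H2 (x1 - θ * (ξ 0 * t1)) (y1 - θ * (ξ 1 * t1))
    (x2 - θ * (ξ 0 * t2)) (y2 - θ * (ξ 1 * t2))
    (x3 - θ * (ξ 0 * t3)) (y3 - θ * (ξ 1 * t3))) (sub_nonneg.2 h1.le)
  have hL := Lam_pos.le
  have k1 := mul_le_mul_of_nonneg_left ht1.le hL
  have k2 := mul_le_mul_of_nonneg_left ht2.le hL
  have hsum : Lam * (η / (2 * Lam + 1)) + Lam * (η / (2 * Lam + 1)) + η / (2 * Lam + 1) = η := by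
    have := Lam_pos
    field_simp
    ring
  have ex : θ * affTE A (x1 + (1 - θ) * (ξ 0 * t1)) (y1 + (1 - θ) * (ξ 1 * t1))
      (x2 + (1 - θ) * (ξ 0 * t2)) (y2 + (1 - θ) * (ξ 1 * t2))
      (x3 + (1 - θ) * (ξ 0 * t3)) (y3 + (1 - θ) * (ξ 1 * t3))
    + (1 - θ) * affTE B (x1 - θ * (ξ 0 * t1)) (y1 - θ * (ξ 1 * t1))
      (x2 - θ * (ξ 0 * t2)) (y2 - θ * (ξ 1 * t2))
      (x3 - θ * (ξ 0 * t3)) (y3 - θ * (ξ 1 * t3))
    = Lam * (θ * affW A (pt (-(4 / 3) + ee + x1 + (1 - θ) * (ξ 0 * t1))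
          (-(2 / 3) + y1 + (1 - θ) * (ξ 1 * t1)))
        + (1 - θ) * affW B (pt (-(4 / 3) + ee + x1 - θ * (ξ 0 * t1))
          (-(2 / 3) + y1 - θ * (ξ 1 * t1))))
      + Lam * (θ * affW A (pt (-(2 / 3) + x2 + (1 - θ) * (ξ 0 * t2))
          (-(4 / 3) + ee + y2 + (1 - θ) * (ξ 1 * t2)))
        + (1 - θ) * affW B (pt (-(2 / 3) + x2 - θ * (ξ 0 * t2))
          (-(4 / 3) + ee + y2 - θ * (ξ 1 * t2))))
      + (θ * affW A (pt (-ee + x3 + (1 - θ) * (ξ 0 * t3)) (-ee + y3 + (1 - θ) * (ξ 1 * t3)))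
        + (1 - θ) * affW B (pt (-ee + x3 - θ * (ξ 0 * t3)) (-ee + y3 - θ * (ξ 1 * t3)))) := by
    simp only [affTE, TE, ← add_assoc, ← add_sub_assoc]
    ring
  have hMdef : affTE M x1 y1 x2 y2 x3 y3 = Lam * affW M (pt (-(4 / 3) + ee + x1) (-(2 / 3) + y1))
    + Lam * affW M (pt (-(2 / 3) + x2) (-(4 / 3) + ee + y2))
    + affW M (pt (-ee + x3) (-ee + y3)) := rfl
  rw [hMdef]
  linarith

lemma affInv_laminate {k : ℕ} {M : Matrix (Ent 1 ⊕ Unit) (Ent 1 ⊕ Unit) ℝ}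
    (h : AffLaminate (KF k) M) : AffInv M := by
  induction h with
  | phase j => exact affInv_phase k j
  | layer A B M θ ξ _ _ h0 h1 hξ hM ihA ihB => exact affInv_layer ihA ihB h0 h1 hξ hM

lemma aff_lower {k : ℕ} {M : Matrix (Ent 1 ⊕ Unit) (Ent 1 ⊕ Unit) ℝ}
    (h : AffLaminate (KF k) M) : BB + ee ^ 2 * (27900 / 40000) ≤ affTE M 0 0 0 0 0 0 := by
  obtain ⟨r, s, w, e, _, _, _, he, H⟩ := affInv_laminate h
  have h1 := H 0 0 0 0 0 0
  have h2 := low_root r s w e he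
  linarith

lemma continuous_affW {n : ℕ} (F : Ent n → ℝ) :
    Continuous (fun M : Matrix (Ent n ⊕ Unit) (Ent n ⊕ Unit) ℝ => affW M F) := by
  unfold affW
  exact continuous_const.dotProduct (continuous_id.matrix_mulVec continuous_const)

lemma aff_lower_closure {k : ℕ} {M : Matrix (Ent 1 ⊕ Unit) (Ent 1 ⊕ Unit) ℝ}
    (h : M ∈ affGL (KF k)) : BB + ee ^ 2 * (27900 / 40000) ≤ affTE M 0 0 0 0 0 0 := by
  have hc : IsClosed {M : Matrix (Ent 1 ⊕ Unit) (Ent 1 ⊕ Unit) ℝ |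
      BB + ee ^ 2 * (27900 / 40000) ≤ affTE M 0 0 0 0 0 0} := by
    apply isClosed_le continuous_const
    unfold affTE TE
    exact (((continuous_affW _).const_mul _).add ((continuous_affW _).const_mul _)).add
      (continuous_affW _)
  exact closure_minimal (fun M hM => aff_lower hM) hc h

end Pool.Agent.Lib.MP_2a9317_an
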