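import Pool.Agent.Lib.MP_2a9317_an.Test

set_option autoImplicit false

namespace Pool.Agent.Lib.MP_2a9317_an

open MeasureTheory Matrix Real
open scoped ContDiff

/-- extension of a gradient by zero -/
def JA (n : ℕ) : (Ent n → ℝ) →ₗ[ℝ] (Ent n ⊕ Unit → ℝ) where
  toFun F := Sum.elim F (fun _ => 0)
  map_add' F G := by ext i; rcases i with i | i <;> simp
  map_smul' c F := by ext i; rcases i with i | i <;> simp

lemma JA_cont (n : ℕ) : Continuous (JA n) := by
  apply continuous_pi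
  rintro (i | i)
  · exact continuous_apply i
  · exact continuous_const

lemma aff_add {n : ℕ} (F G : Ent n → ℝ) : aff (F + G) = aff F + JA n G := by
  ext i; rcases i with i | i <;> simp [aff, JA]

/-- the effective matrix of a composite exists -/
lemma exists_affEffective {n k : ℕ} (K : Fin k → Matrix (Ent n ⊕ Unit) (Ent n ⊕ Unit) ℝ)
    (hK : ∀ j, (K j).PosDef) {χ : ℝ × ℝ → Fin k} (hχ : IsPartition χ) :
    ∃ M, AffEffective K χ M := by
  obtain ⟨M, hM, h⟩ := exists_effective (JA n) (JA_cont n) K hK hχ.1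
  refine ⟨M, hM, fun F => ?_⟩
  have := h (aff F)
  unfold affStar affW
  simp only [aff_add]
  exact this

lemma affW_nonneg {n : ℕ} {K : Matrix (Ent n ⊕ Unit) (Ent n ⊕ Unit) ℝ} (hK : K.PosDef)
    (F : Ent n → ℝ) : 0 ≤ affW K F := by
  have := hK.posSemidef.dotProduct_mulVec_nonneg (aff F)
  simpa [affW] using this

lemma affStar_le {n k : ℕ} (K : Fin k → Matrix (Ent n ⊕ Unit) (Ent n ⊕ Unit) ℝ)
    (hK : ∀ j, (K j).PosDef) (χ : ℝ × ℝ → Fin k) (F : Ent n → ℝ) {u : ℝ × ℝ → Fin n → ℝ}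
    (hu : IsPotential u) : affStar K χ F ≤ avg fun p => affW (K (χ p)) (F + grad u p) := by
  unfold affStar
  refine ciInf_le (f := fun u : {u : ℝ × ℝ → Fin n → ℝ // IsPotential u} =>
    avg fun p => affW (K (χ p)) (F + grad u.1 p)) ?_ ⟨u, hu⟩
  refine ⟨0, ?_⟩
  rintro _ ⟨v, rfl⟩
  exact avg_nonneg fun p => affW_nonneg (hK _) _

lemma integrable_affW {n k : ℕ} (K : Fin k → Matrix (Ent n ⊕ Unit) (Ent n ⊕ Unit) ℝ)
    {χ : ℝ × ℝ → Fin k} (hχ : IsPartition χ) (F : Ent n → ℝ) {u : ℝ × ℝ → Fin n → ℝ}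
    (hu : IsPotential u) : IntegrableOn (fun p => affW (K (χ p)) (F + grad u p)) cell := by
  unfold affW
  simp only [aff_add]
  have hc : Continuous (fun p => aff F + JA n (grad u p)) :=
    continuous_const.add ((JA_cont n).comp (continuous_grad hu))
  exact integrable_quad K hχ.1 hc hc

lemma pt_add (x y : ℝ) (a b : ℝ) : pt x y + tens ![a, b] (fun _ => 1) = pt (x + a) (y + b) := by
  ext ⟨i, j⟩
  fin_cases i <;> simp [pt, tens]

lemma affW_chi (k : ℕ) (hk : 4 ≤ k) (p : ℝ × ℝ) (x y : ℝ) :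
    affW (KF k (chi k hk p)) (pt x y) = WW (sg p.1) (sg p.2) x y 1 := by
  obtain ⟨h1, h2, h3⟩ := chi_spec k hk p
  rw [affW, KF_quad, h1, h2, h3]
  simp only [Nat.cast_zero, zero_mul, add_zero]
  rfl

theorem aff_upper (k : ℕ) (hk : 4 ≤ k) :
    Lam * affStar (KF k) (chi k hk) (pt (-(4 / 3) + ee + 0) (-(2 / 3) + 0))
    + Lam * affStar (KF k) (chi k hk) (pt (-(2 / 3) + 0) (-(4 / 3) + ee + 0))
    + affStar (KF k) (chi k hk) (pt (-ee + 0) (-ee + 0))
    ≤ BB + 600012 * ee ^ 3 + ee ^ 2 * (673 / 1000) := by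
  obtain ⟨c, h0, h1, hint, hUB⟩ := UB_avg
  have hχ := chi_partition k hk
  have hPD := KF_posDef k
  let e : Fin 1 → ℝ := fun _ => 1
  have b1 := affStar_le (KF k) hPD (chi k hk) (pt (-(4 / 3) + ee + 0) (-(2 / 3) + 0))
    (u1_pot e h0 h1)
  have b2 := affStar_le (KF k) hPD (chi k hk) (pt (-(2 / 3) + 0) (-(4 / 3) + ee + 0))
    (u2_pot e h0 h1)
  have b3 := affStar_le (KF k) hPD (chi k hk) (pt (-ee + 0) (-ee + 0)) (u3_pot e)
  have i1 := integrable_affW (KF k) hχ (pt (-(4 / 3) + ee + 0) (-(2 / 3) + 0)) (u1_pot e h0 h1)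
  have i2 := integrable_affW (KF k) hχ (pt (-(2 / 3) + 0) (-(4 / 3) + ee + 0)) (u2_pot e h0 h1)
  have i3 := integrable_affW (KF k) hχ (pt (-ee + 0) (-ee + 0)) (u3_pot e)
  have hL := Lam_pos.le
  have c1 := mul_le_mul_of_nonneg_left b1 hL
  have c2 := mul_le_mul_of_nonneg_left b2 hL
  rw [← avg_mul] at c1 c2
  have hsum := add_le_add (add_le_add c1 c2) b3
  refine hsum.trans ?_
  have i12 : IntegrableOn (fun p =>
      Lam * affW (KF k (chi k hk p)) (pt (-(4 / 3) + ee + 0) (-(2 / 3) + 0) + grad (u1 c e) p)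
      + Lam * affW (KF k (chi k hk p)) (pt (-(2 / 3) + 0) (-(4 / 3) + ee + 0) + grad (u2 c e) p))
      cell := (i1.const_mul Lam).add (i2.const_mul Lam)
  rw [← avg_add (i1.const_mul Lam) (i2.const_mul Lam), ← avg_add i12 i3]
  calc _ ≤ avg (fun p => (BB + 600012 * ee ^ 3) + UB c p) := by
        apply avg_mono (i12.add i3)
        · exact ((continuous_const.continuousOn).integrableOn_compact isCompact_cell).add hint
        · intro p
          have h := pattern_UB c h0 h1 p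
          simp only [TE] at h
          simp only [u1_grad e h0 h1, u2_grad e h0 h1, u3_grad, e, pt_add, affW_chi]
          simp only [add_zero] at h ⊢
          exact h
    _ = (BB + 600012 * ee ^ 3) + avg (UB c) := by
        rw [avg_add ((continuous_const.continuousOn).integrableOn_compact isCompact_cell) hint,
          avg_const]
    _ ≤ _ := by linarith

/-- main theorem of the affine case -/
theorem aff_main (k : ℕ) (hk : 4 ≤ k) :
    ∃ K : Fin k → Matrix (Ent 1 ⊕ Unit) (Ent 1 ⊕ Unit) ℝ,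
      Function.Injective K ∧ (∀ j, (K j).PosDef) ∧ ∃ M ∈ affG K, M ∉ affGL K := by
  refine ⟨KF k, KF_injective k, KF_posDef k, ?_⟩
  obtain ⟨M, hM⟩ := exists_affEffective (KF k) (KF_posDef k) (chi_partition k hk)
  refine ⟨M, subset_closure ⟨_, chi_partition k hk, hM⟩, fun hcon => ?_⟩
  have h1 := aff_lower_closure hcon
  have h2 := aff_upper k hk
  rw [hM.2, hM.2, hM.2] at h2
  have h3 : affTE M 0 0 0 0 0 0 = Lam * affW M (pt (-(4 / 3) + ee + 0) (-(2 / 3) + 0))
    + Lam * affW M (pt (-(2 / 3) + 0) (-(4 / 3) + ee + 0))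
    + affW M (pt (-ee + 0) (-ee + 0)) := rfl
  have h4 := gap
  have h5 : (0 : ℝ) < 1 / 10 ^ 21 := by positivity
  rw [h3] at h1
  linarith

theorem nK_eq_one (k : ℕ) (hk : 4 ≤ k) : nK k = 1 := by
  apply le_antisymm
  · obtain ⟨K, _, hPD, M, hM1, hM2⟩ := aff_main k hk
    apply sInf_le
    refine ⟨1, by simp, le_refl 1, K, hPD, fun h => hM2 (h ▸ hM1)⟩
  · apply le_sInf
    rintro m ⟨n, rfl, hn, -⟩
    exact_mod_cast hn

end Pool.Agent.Lib.MP_2a9317_an
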