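import Mathlib

set_option autoImplicit false

namespace Pool.Agent.Lib.MP_2a9317_an

/-! ### The algebra behind the lower bound for laminates -/

/-- weight of the first two test fields -/
noncomputable def Lam : ℝ := 25000

/-- the lower bound polynomial -/
noncomputable def gg (r s w : ℝ) : ℝ :=
  (19 / 20) * (1 - w ^ 2) + (w - r * s) ^ 2 - (1 / 100) * (2 - r ^ 2 - s ^ 2)

lemma qform_nonneg (X Y T p q m Dr Ds Dw : ℝ) (hX : 0 ≤ X) (hY : 0 ≤ Y)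
    (hXY : X * Y = T ^ 2) (hsum : X + Y = 1 + T) (hp : |p| ≤ 1) (hq : |q| ≤ 1) (hm : |m| ≤ 4) :
    0 ≤ (1 / 20 - T) * Dw ^ 2 + (Dw - p * Ds - q * Dr) ^ 2 - m * (Dr * Ds)
      + (1 / 100) * (Dr ^ 2 + Ds ^ 2) + 25000 * (Y * Dr ^ 2 + X * Ds ^ 2) := by
  have hmb : m * (Dr * Ds) ≤ 4 * (|Dr| * |Ds|) := by
    calc m * (Dr * Ds) ≤ |m * (Dr * Ds)| := le_abs_self _
      _ = |m| * (|Dr| * |Ds|) := by rw [abs_mul, abs_mul]
      _ ≤ 4 * (|Dr| * |Ds|) := by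
        apply mul_le_mul_of_nonneg_right hm; positivity
  have hDr : Dr ^ 2 = |Dr| ^ 2 := (sq_abs _).symm
  have hDs : Ds ^ 2 = |Ds| ^ 2 := (sq_abs _).symm
  have h1 := abs_nonneg Dr
  have h2 := abs_nonneg Ds
  have hT1 : T ≤ 1 := by nlinarith [sq_nonneg (X - Y)]
  have hT3 : -1 / 3 ≤ T := by nlinarith [sq_nonneg (X - Y), sq_nonneg (X + Y)]
  rcases le_or_gt T (1 / 20) with hT | hT
  · have e1 : 0 ≤ (1 / 20 - T) * Dw ^ 2 := mul_nonneg (by linarith) (sq_nonneg _)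
    have e2 := sq_nonneg (Dw - p * Ds - q * Dr)
    have hmax : 1 / 3 ≤ X ∨ 1 / 3 ≤ Y := by
      by_contra hcon
      push Not at hcon
      linarith [hcon.1, hcon.2]
    rcases hmax with h | h
    · have e3 : (1 / 3) * Ds ^ 2 ≤ X * Ds ^ 2 := mul_le_mul_of_nonneg_right h (sq_nonneg _)
      have e4 : 0 ≤ Y * Dr ^ 2 := mul_nonneg hY (sq_nonneg _)
      have e5 : 4 * (|Dr| * |Ds|) ≤ (1 / 100) * |Dr| ^ 2 + 400 * |Ds| ^ 2 := by
        nlinarith [sq_nonneg (|Dr| / 10 - 20 * |Ds|)]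
      rw [← hDr, ← hDs] at e5
      nlinarith [sq_nonneg Ds, sq_nonneg Dr]
    · have e3 : (1 / 3) * Dr ^ 2 ≤ Y * Dr ^ 2 := mul_le_mul_of_nonneg_right h (sq_nonneg _)
      have e4 : 0 ≤ X * Ds ^ 2 := mul_nonneg hX (sq_nonneg _)
      have e5 : 4 * (|Dr| * |Ds|) ≤ (1 / 100) * |Ds| ^ 2 + 400 * |Dr| ^ 2 := by
        nlinarith [sq_nonneg (|Ds| / 10 - 20 * |Dr|)]
      rw [← hDr, ← hDs] at e5
      nlinarith [sq_nonneg Ds, sq_nonneg Dr]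
  · have hTT : 1 / 400 ≤ T ^ 2 := by nlinarith
    have hTe : T = X + Y - 1 := by linarith
    have hX43 : X ≤ 4 / 3 := by
      by_contra hcon
      push Not at hcon
      have h3 : (2 * Y + X - 2) ^ 2 + X * (3 * X - 4) = 0 := by
        rw [hTe] at hXY; linear_combination (-4) * hXY
      have h4 : 0 < X * (3 * X - 4) := mul_pos (by linarith) (by linarith)
      nlinarith [sq_nonneg (2 * Y + X - 2)]
    have hY43 : Y ≤ 4 / 3 := by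
      by_contra hcon
      push Not at hcon
      have h3 : (2 * X + Y - 2) ^ 2 + Y * (3 * Y - 4) = 0 := by
        rw [hTe] at hXY; linear_combination (-4) * hXY
      have h4 : 0 < Y * (3 * Y - 4) := mul_pos (by linarith) (by linarith)
      nlinarith [sq_nonneg (2 * X + Y - 2)]
    have hXlow : 3 / 1600 ≤ X := by nlinarith
    have hYlow : 3 / 1600 ≤ Y := by nlinarith
    have e3 : (3 / 1600) * Ds ^ 2 ≤ X * Ds ^ 2 := mul_le_mul_of_nonneg_right hXlow (sq_nonneg _)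
    have e4 : (3 / 1600) * Dr ^ 2 ≤ Y * Dr ^ 2 := mul_le_mul_of_nonneg_right hYlow (sq_nonneg _)
    have e5 : 4 * (|Dr| * |Ds|) ≤ 2 * Dr ^ 2 + 2 * Ds ^ 2 := by
      rw [hDr, hDs]; nlinarith [sq_nonneg (|Dr| - |Ds|)]
    have e6 : 2 * (p * Ds + q * Dr) * Dw ≤ (1 / 20) * Dw ^ 2 + 20 * (p * Ds + q * Dr) ^ 2 := by
      nlinarith [sq_nonneg (Dw / 20 - (p * Ds + q * Dr))]
    have hpp : p ^ 2 ≤ 1 := by
      rw [← sq_abs]; nlinarith [abs_nonneg p]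
    have hqq : q ^ 2 ≤ 1 := by
      rw [← sq_abs]; nlinarith [abs_nonneg q]
    have e7 : (p * Ds + q * Dr) ^ 2 ≤ 2 * Ds ^ 2 + 2 * Dr ^ 2 := by
      nlinarith [sq_nonneg (p * Ds - q * Dr), mul_le_mul_of_nonneg_right hpp (sq_nonneg Ds),
        mul_le_mul_of_nonneg_right hqq (sq_nonneg Dr)]
    have e8 : 0 ≤ (1 - T) * Dw ^ 2 := mul_nonneg (by linarith) (sq_nonneg _)
    have e9 := sq_nonneg (p * Ds + q * Dr)
    nlinarith [sq_nonneg Ds, sq_nonneg Dr]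

/-- the polynomial `gg` satisfies the lamination inequality -/
lemma gg_layer (θ r1 s1 w1 r2 s2 w2 x y : ℝ) (h0 : 0 ≤ θ) (h1 : θ ≤ 1)
    (hr1 : |r1| ≤ 1) (hs1 : |s1| ≤ 1) (hw1 : |w1| ≤ 1)
    (hr2 : |r2| ≤ 1) (hs2 : |s2| ≤ 1) (hw2 : |w2| ≤ 1)
    (hN : 0 < x ^ 2 - x * y + y ^ 2) :
    gg (θ * r1 + (1 - θ) * r2) (θ * s1 + (1 - θ) * s2) (θ * w1 + (1 - θ) * w2) ≤
      θ * gg r1 s1 w1 + (1 - θ) * gg r2 s2 w2
      + θ * (1 - θ) * ((Lam * (y ^ 2 * (r1 - r2) ^ 2 + x ^ 2 * (s1 - s2) ^ 2)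
          + (x - y) ^ 2 * (w1 - w2) ^ 2) / (x ^ 2 - x * y + y ^ 2)) := by
  set N := x ^ 2 - x * y + y ^ 2 with hNdef
  have hNne : N ≠ 0 := hN.ne'
  set Z := (θ * w1 + (1 - θ) * w2) - (θ * r1 + (1 - θ) * r2) * (θ * s1 + (1 - θ) * s2) with hZ
  set Z' := θ * (w1 - r1 * s1) + (1 - θ) * (w2 - r2 * s2) with hZ'
  have abs1 : ∀ a b : ℝ, |a| ≤ 1 → |b| ≤ 1 → |θ * a + (1 - θ) * b| ≤ 1 := by
    intro a b ha hb
    rw [abs_le] at ha hb ⊢
    constructor <;> nlinarith [ha.1, ha.2, hb.1, hb.2]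
  have absm : ∀ a b : ℝ, |a| ≤ 1 → |b| ≤ 1 → |a * b| ≤ 1 := by
    intro a b ha hb
    rw [abs_mul]
    exact mul_le_one₀ ha (abs_nonneg _) hb
  have abs2 : ∀ a b : ℝ, |a| ≤ 1 → |b| ≤ 1 → |a - b| ≤ 2 := by
    intro a b ha hb
    rw [abs_le] at ha hb ⊢
    constructor <;> linarith [ha.1, ha.2, hb.1, hb.2]
  have hZb : |Z| ≤ 2 := abs2 _ _ (abs1 _ _ hw1 hw2) (absm _ _ (abs1 _ _ hr1 hr2) (abs1 _ _ hs1 hs2))
  have hZ1b : |w1 - r1 * s1| ≤ 2 := abs2 _ _ hw1 (absm _ _ hr1 hs1)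
  have hZ2b : |w2 - r2 * s2| ≤ 2 := abs2 _ _ hw2 (absm _ _ hr2 hs2)
  have hZ'b : |Z'| ≤ 2 := by
    rw [abs_le] at hZ1b hZ2b ⊢
    constructor <;> nlinarith [hZ1b.1, hZ1b.2, hZ2b.1, hZ2b.2]
  have hm : |Z + Z'| ≤ 4 := by
    calc |Z + Z'| ≤ |Z| + |Z'| := abs_add_le _ _
      _ ≤ 4 := by linarith
  have hTN : x ^ 2 / N + y ^ 2 / N = 1 + x * y / N := by
    have h : x ^ 2 + y ^ 2 = N + x * y := by rw [hNdef]; ring
    rw [← add_div, h, add_div, div_self hNne]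
  have key := qform_nonneg (x ^ 2 / N) (y ^ 2 / N) (x * y / N) r1 s2 (Z + Z')
    (r1 - r2) (s1 - s2) (w1 - w2) (by positivity) (by positivity)
    (by field_simp) hTN hr1 hs2 hm
  have hdiv : (Lam * (y ^ 2 * (r1 - r2) ^ 2 + x ^ 2 * (s1 - s2) ^ 2)
          + (x - y) ^ 2 * (w1 - w2) ^ 2) / N
      = 25000 * (y ^ 2 / N * (r1 - r2) ^ 2 + x ^ 2 / N * (s1 - s2) ^ 2)
        + (1 - x * y / N) * (w1 - w2) ^ 2 := by
    have : (x - y) ^ 2 = N - x * y := by rw [hNdef]; ring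
    rw [this, Lam]
    field_simp
  rw [hdiv]
  have hid : θ * gg r1 s1 w1 + (1 - θ) * gg r2 s2 w2
      + θ * (1 - θ) * (25000 * (y ^ 2 / N * (r1 - r2) ^ 2 + x ^ 2 / N * (s1 - s2) ^ 2)
        + (1 - x * y / N) * (w1 - w2) ^ 2)
      - gg (θ * r1 + (1 - θ) * r2) (θ * s1 + (1 - θ) * s2) (θ * w1 + (1 - θ) * w2)
      = θ * (1 - θ) * ((1 / 20 - x * y / N) * (w1 - w2) ^ 2
        + ((w1 - w2) - r1 * (s1 - s2) - s2 * (r1 - r2)) ^ 2 - (Z + Z') * ((r1 - r2) * (s1 - s2))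
      + (1 / 100) * ((r1 - r2) ^ 2 + (s1 - s2) ^ 2)
      + 25000 * (y ^ 2 / N * (r1 - r2) ^ 2 + x ^ 2 / N * (s1 - s2) ^ 2)) := by
    rw [hZ, hZ']
    simp only [gg]
    ring
  have hpos : 0 ≤ θ * (1 - θ) := mul_nonneg h0 (by linarith)
  have := mul_nonneg hpos key
  linarith [hid, this]

/-- lower bound of the value at barycentre `(r,s,w)` -/
lemma gg_root (r s w e : ℝ) (he : (3 / 4) * gg r s w ≤ e) :
    27900 / 40000 ≤ Lam * r ^ 2 + Lam * s ^ 2 + w ^ 2 + e := by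
  have h1 := sq_nonneg r
  have h2 := sq_nonneg s
  have h3 := sq_nonneg (w - r * s)
  have h4 := sq_nonneg w
  simp only [gg, Lam] at *
  nlinarith

/-- the reference quadratic form on gradients -/
noncomputable def NN (x y : ℝ) : ℝ := x ^ 2 - x * y + y ^ 2

lemma NN_nonneg (x y : ℝ) : 0 ≤ NN x y := by
  simp only [NN]; nlinarith [sq_nonneg (x - y), sq_nonneg x, sq_nonneg y]

lemma NN_pos (x y : ℝ) (h : ¬ (x = 0 ∧ y = 0)) : 0 < NN x y := by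
  rcases (NN_nonneg x y).lt_or_eq with h1 | h1
  · exact h1
  · exfalso
    apply h
    simp only [NN] at h1
    have hx : x = 0 := by
      have : x ^ 2 = 0 := by nlinarith [sq_nonneg (x - 2 * y), sq_nonneg x]
      simpa using this
    have hy : y = 0 := by
      have : y ^ 2 = 0 := by nlinarith [sq_nonneg (y - 2 * x), sq_nonneg y]
      simpa using this
    exact ⟨hx, hy⟩

/-- contrast parameter -/
noncomputable def ee : ℝ := 1 / 10 ^ 9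

/-- the lower bound function for a laminate with phase averages `r, s, w` and excess `e` -/
noncomputable def Low (r s w e x1 y1 x2 y2 x3 y3 : ℝ) : ℝ :=
  Lam * NN (x1 - ee * r) y1 + Lam * NN x2 (y2 - ee * s) + NN (x3 - ee * w) (y3 - ee * w)
    + ee ^ 2 * e - 2 * Lam * (x1 + y2)

lemma NN_split (θ a b c d : ℝ) :
    θ * NN a b + (1 - θ) * NN c d
      = NN (θ * a + (1 - θ) * c) (θ * b + (1 - θ) * d) + θ * (1 - θ) * NN (a - c) (b - d) := by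
  simp only [NN]; ring

lemma NN_wedge (x y p q : ℝ) (h : 0 < NN x y) :
    (3 / 4) * ((x * q - y * p) ^ 2 / NN x y) ≤ NN p q := by
  rw [← mul_div_assoc, div_le_iff₀ h]
  have : NN p q * NN x y - (3 / 4) * (x * q - y * p) ^ 2
      = (x * p - (x * q + y * p) / 2 + y * q) ^ 2 := by
    simp only [NN]; ring
  nlinarith [sq_nonneg (x * p - (x * q + y * p) / 2 + y * q)]

/-- the excess of a layering -/
noncomputable def exc (θ r1 s1 w1 e1 r2 s2 w2 e2 x y : ℝ) : ℝ :=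
  θ * e1 + (1 - θ) * e2 + θ * (1 - θ) * ((3 / 4) *
    ((Lam * (y ^ 2 * (r1 - r2) ^ 2 + x ^ 2 * (s1 - s2) ^ 2) + (x - y) ^ 2 * (w1 - w2) ^ 2)
      / NN x y))

lemma low_step (θ r1 s1 w1 e1 r2 s2 w2 e2 x y x1 y1 x2 y2 x3 y3 t1 t2 t3 : ℝ)
    (h0 : 0 ≤ θ) (h1 : θ ≤ 1) (hN : 0 < NN x y) :
    Low (θ * r1 + (1 - θ) * r2) (θ * s1 + (1 - θ) * s2) (θ * w1 + (1 - θ) * w2)
      (exc θ r1 s1 w1 e1 r2 s2 w2 e2 x y) x1 y1 x2 y2 x3 y3
    ≤ θ * Low r1 s1 w1 e1 (x1 + (1 - θ) * (x * t1)) (y1 + (1 - θ) * (y * t1))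
          (x2 + (1 - θ) * (x * t2)) (y2 + (1 - θ) * (y * t2))
          (x3 + (1 - θ) * (x * t3)) (y3 + (1 - θ) * (y * t3))
      + (1 - θ) * Low r2 s2 w2 e2 (x1 - θ * (x * t1)) (y1 - θ * (y * t1))
          (x2 - θ * (x * t2)) (y2 - θ * (y * t2))
          (x3 - θ * (x * t3)) (y3 - θ * (y * t3)) := by
  have a1 := NN_split θ (x1 + (1 - θ) * (x * t1) - ee * r1) (y1 + (1 - θ) * (y * t1))
    (x1 - θ * (x * t1) - ee * r2) (y1 - θ * (y * t1))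
  have a2 := NN_split θ (x2 + (1 - θ) * (x * t2)) (y2 + (1 - θ) * (y * t2) - ee * s1)
    (x2 - θ * (x * t2)) (y2 - θ * (y * t2) - ee * s2)
  have a3 := NN_split θ (x3 + (1 - θ) * (x * t3) - ee * w1) (y3 + (1 - θ) * (y * t3) - ee * w1)
    (x3 - θ * (x * t3) - ee * w2) (y3 - θ * (y * t3) - ee * w2)
  have b1 := NN_wedge x y (x1 + (1 - θ) * (x * t1) - ee * r1 - (x1 - θ * (x * t1) - ee * r2))
    (y1 + (1 - θ) * (y * t1) - (y1 - θ * (y * t1))) hN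
  have b2 := NN_wedge x y (x2 + (1 - θ) * (x * t2) - (x2 - θ * (x * t2)))
    (y2 + (1 - θ) * (y * t2) - ee * s1 - (y2 - θ * (y * t2) - ee * s2)) hN
  have b3 := NN_wedge x y (x3 + (1 - θ) * (x * t3) - ee * w1 - (x3 - θ * (x * t3) - ee * w2))
    (y3 + (1 - θ) * (y * t3) - ee * w1 - (y3 - θ * (y * t3) - ee * w2)) hN
  have c1 : θ * (x1 + (1 - θ) * (x * t1) - ee * r1) + (1 - θ) * (x1 - θ * (x * t1) - ee * r2)
      = x1 - ee * (θ * r1 + (1 - θ) * r2) := by ring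
  have c1' : θ * (y1 + (1 - θ) * (y * t1)) + (1 - θ) * (y1 - θ * (y * t1)) = y1 := by ring
  have c2 : θ * (x2 + (1 - θ) * (x * t2)) + (1 - θ) * (x2 - θ * (x * t2)) = x2 := by ring
  have c2' : θ * (y2 + (1 - θ) * (y * t2) - ee * s1) + (1 - θ) * (y2 - θ * (y * t2) - ee * s2)
      = y2 - ee * (θ * s1 + (1 - θ) * s2) := by ring
  have c3 : θ * (x3 + (1 - θ) * (x * t3) - ee * w1) + (1 - θ) * (x3 - θ * (x * t3) - ee * w2)
      = x3 - ee * (θ * w1 + (1 - θ) * w2) := by ring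
  have c3' : θ * (y3 + (1 - θ) * (y * t3) - ee * w1) + (1 - θ) * (y3 - θ * (y * t3) - ee * w2)
      = y3 - ee * (θ * w1 + (1 - θ) * w2) := by ring
  rw [c1, c1'] at a1
  rw [c2, c2'] at a2
  rw [c3, c3'] at a3
  have d1 : (x * (y1 + (1 - θ) * (y * t1) - (y1 - θ * (y * t1)))
      - y * (x1 + (1 - θ) * (x * t1) - ee * r1 - (x1 - θ * (x * t1) - ee * r2))) ^ 2
      = ee ^ 2 * (y ^ 2 * (r1 - r2) ^ 2) := by ring
  have d2 : (x * (y2 + (1 - θ) * (y * t2) - ee * s1 - (y2 - θ * (y * t2) - ee * s2))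
      - y * (x2 + (1 - θ) * (x * t2) - (x2 - θ * (x * t2)))) ^ 2
      = ee ^ 2 * (x ^ 2 * (s1 - s2) ^ 2) := by ring
  have d3 : (x * (y3 + (1 - θ) * (y * t3) - ee * w1 - (y3 - θ * (y * t3) - ee * w2))
      - y * (x3 + (1 - θ) * (x * t3) - ee * w1 - (x3 - θ * (x * t3) - ee * w2))) ^ 2
      = ee ^ 2 * ((x - y) ^ 2 * (w1 - w2) ^ 2) := by ring
  rw [d1] at b1
  rw [d2] at b2
  rw [d3] at b3
  have hL : (0:ℝ) ≤ Lam := by unfold Lam; norm_num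
  have hpos : 0 ≤ θ * (1 - θ) := mul_nonneg h0 (by linarith)
  have f1 := mul_le_mul_of_nonneg_left (mul_le_mul_of_nonneg_left b1 hpos) hL
  have f2 := mul_le_mul_of_nonneg_left (mul_le_mul_of_nonneg_left b2 hpos) hL
  have f3 := mul_le_mul_of_nonneg_left b3 hpos
  have a1' := congrArg (fun z => Lam * z) a1
  have a2' := congrArg (fun z => Lam * z) a2
  have hexc : ee ^ 2 * exc θ r1 s1 w1 e1 r2 s2 w2 e2 x y
      = θ * (ee ^ 2 * e1) + (1 - θ) * (ee ^ 2 * e2)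
        + Lam * (θ * (1 - θ) * (3 / 4 * (ee ^ 2 * (y ^ 2 * (r1 - r2) ^ 2) / NN x y)))
        + Lam * (θ * (1 - θ) * (3 / 4 * (ee ^ 2 * (x ^ 2 * (s1 - s2) ^ 2) / NN x y)))
        + θ * (1 - θ) * (3 / 4 * (ee ^ 2 * ((x - y) ^ 2 * (w1 - w2) ^ 2) / NN x y)) := by
    simp only [exc]
    ring
  simp only [Low]
  rw [hexc]
  linarith [a1', a2', a3, f1, f2, f3]

end Pool.Agent.Lib.MP_2a9317_an
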