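import Mathlib

set_option autoImplicit false

namespace Pool.Agent.Lib.MP_2a9317_an

open MeasureTheory Matrix
open scoped ContDiff

/-! ### Periodic fields and partitions in the plane (unit cell `[0,1]²`) -/

/-- Positions `(i, j)` of the entries of a real `2 × n` matrix; `Ent n → ℝ` is the space of real
`2 × n` matrices. -/
abbrev Ent (n : ℕ) : Type := Fin 2 × Fin n

/-- The coordinate directions of the plane. -/
def dir (i : Fin 2) : ℝ × ℝ := if i = 0 then (1, 0) else (0, 1)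

/-- The gradient of `u : ℝ² → ℝⁿ`: its entry `(i, j)` is `∂u_j/∂x_i`. -/
noncomputable def grad {n : ℕ} (u : ℝ × ℝ → Fin n → ℝ) (p : ℝ × ℝ) : Ent n → ℝ :=
  fun q => fderiv ℝ u p (dir q.1) q.2

/-- The rank-one matrix `ξ ⊗ a` with entries `ξ_i a_j`. -/
def tens {n : ℕ} (ξ : Fin 2 → ℝ) (a : Fin n → ℝ) : Ent n → ℝ := fun q => ξ q.1 * a q.2

/-- Smooth potentials `ℝ² → ℝⁿ`, periodic with respect to the unit cell `[0,1]²`. -/
def IsPotential {n : ℕ} (u : ℝ × ℝ → Fin n → ℝ) : Prop :=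
  ContDiff ℝ ∞ u ∧ ∀ x y : ℝ, u (x + 1, y) = u (x, y) ∧ u (x, y + 1) = u (x, y)

/-- Measurable periodic partitions of the plane into `k` phases: phase `j` occupies the set
where `χ` takes the value `j`. -/
def IsPartition {k : ℕ} (χ : ℝ × ℝ → Fin k) : Prop :=
  Measurable χ ∧ ∀ x y : ℝ, χ (x + 1, y) = χ (x, y) ∧ χ (x, y + 1) = χ (x, y)

/-- The average over the unit cell `[0,1]²`. -/
noncomputable def avg (f : ℝ × ℝ → ℝ) : ℝ :=
  ∫ p in Set.Icc (0 : ℝ) 1 ×ˢ Set.Icc (0 : ℝ) 1, f p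

/-! ### The affine problem -/

/-- The vector `(F, 1)` of the space `(2 × n matrices) ⊕ ℝ`. -/
def aff {n : ℕ} (F : Ent n → ℝ) : Ent n ⊕ Unit → ℝ := Sum.elim F (fun _ => 1)

/-- `W_K(F) = (F, 1) · K (F, 1)`. -/
def affW {n : ℕ} (K : Matrix (Ent n ⊕ Unit) (Ent n ⊕ Unit) ℝ) (F : Ent n → ℝ) : ℝ :=
  aff F ⬝ᵥ (K *ᵥ aff F)

/-- `W_*(F) = inf_u ⟨Σ χ_i W_i(F + ∇u)⟩`, the infimum over periodic potentials `u`. -/
noncomputable def affStar {n k : ℕ} (K : Fin k → Matrix (Ent n ⊕ Unit) (Ent n ⊕ Unit) ℝ)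
    (χ : ℝ × ℝ → Fin k) (F : Ent n → ℝ) : ℝ :=
  ⨅ u : {u : ℝ × ℝ → Fin n → ℝ // IsPotential u}, avg fun p => affW (K (χ p)) (F + grad u.1 p)

/-- `M` is the effective matrix `K_*` of the composite `χ` of the phases `K_j`. -/
def AffEffective {n k : ℕ} (K : Fin k → Matrix (Ent n ⊕ Unit) (Ent n ⊕ Unit) ℝ)
    (χ : ℝ × ℝ → Fin k) (M : Matrix (Ent n ⊕ Unit) (Ent n ⊕ Unit) ℝ) : Prop :=
  M.IsSymm ∧ ∀ F : Ent n → ℝ, affStar K χ F = affW M F

/-- The G-closure `G(K_1, …, K_k)`. -/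
def affG {n k : ℕ} (K : Fin k → Matrix (Ent n ⊕ Unit) (Ent n ⊕ Unit) ℝ) :
    Set (Matrix (Ent n ⊕ Unit) (Ent n ⊕ Unit) ℝ) :=
  closure {M | ∃ χ : ℝ × ℝ → Fin k, IsPartition χ ∧ AffEffective K χ M}

/-- `M` is the effective matrix of the simple layering of the materials `A` (volume fraction `θ`)
and `B` (volume fraction `1 - θ`) with layers normal to `ξ`: the fields in the layers are
`F + (1 - θ) ξ ⊗ a` and `F - θ ξ ⊗ a`, and `a` minimises the energy. -/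
def AffLayer {n : ℕ} (A B : Matrix (Ent n ⊕ Unit) (Ent n ⊕ Unit) ℝ) (θ : ℝ) (ξ : Fin 2 → ℝ)
    (M : Matrix (Ent n ⊕ Unit) (Ent n ⊕ Unit) ℝ) : Prop :=
  M.IsSymm ∧ ∀ F : Ent n → ℝ, affW M F =
    ⨅ a : Fin n → ℝ, (θ * affW A (F + (1 - θ) • tens ξ a) + (1 - θ) * affW B (F - θ • tens ξ a))

/-- Effective matrices of multiple-rank laminates of the phases `K_j`. -/
inductive AffLaminate {n k : ℕ} (K : Fin k → Matrix (Ent n ⊕ Unit) (Ent n ⊕ Unit) ℝ) :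
    Matrix (Ent n ⊕ Unit) (Ent n ⊕ Unit) ℝ → Prop
  | phase (j : Fin k) : AffLaminate K (K j)
  | layer (A B M : Matrix (Ent n ⊕ Unit) (Ent n ⊕ Unit) ℝ) (θ : ℝ) (ξ : Fin 2 → ℝ) :
      AffLaminate K A → AffLaminate K B → 0 < θ → θ < 1 → ξ ≠ 0 → AffLayer A B θ ξ M →
        AffLaminate K M

/-- The lamination closure `G^L(K_1, …, K_k)`. -/
def affGL {n k : ℕ} (K : Fin k → Matrix (Ent n ⊕ Unit) (Ent n ⊕ Unit) ℝ) :
    Set (Matrix (Ent n ⊕ Unit) (Ent n ⊕ Unit) ℝ) :=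
  closure {M | AffLaminate K M}

/-- `n_K(k)`: the least `n ≥ 1` such that `G ≠ G^L` for some `k` symmetric positive definite
phases, and `⊤` (infinity) if there is none. -/
noncomputable def nK (k : ℕ) : ℕ∞ :=
  sInf {m : ℕ∞ | ∃ n : ℕ, m = n ∧ 1 ≤ n ∧
    ∃ K : Fin k → Matrix (Ent n ⊕ Unit) (Ent n ⊕ Unit) ℝ, (∀ j, (K j).PosDef) ∧ affG K ≠ affGL K}

/-! ### The linear problem -/

/-- The energy `F · L F`. -/
def linW {n : ℕ} (L : Matrix (Ent n) (Ent n) ℝ) (F : Ent n → ℝ) : ℝ := F ⬝ᵥ (L *ᵥ F)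

/-- The effective energy `inf_V ⟨(F + ∇V) · L(x) (F + ∇V)⟩`. -/
noncomputable def linStar {n k : ℕ} (L : Fin k → Matrix (Ent n) (Ent n) ℝ)
    (χ : ℝ × ℝ → Fin k) (F : Ent n → ℝ) : ℝ :=
  ⨅ u : {u : ℝ × ℝ → Fin n → ℝ // IsPotential u}, avg fun p => linW (L (χ p)) (F + grad u.1 p)

/-- `M` is the effective tensor `L_*` of the composite `χ` of the phases `L_j`
(Dirichlet principle). -/
def LinEffective {n k : ℕ} (L : Fin k → Matrix (Ent n) (Ent n) ℝ)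
    (χ : ℝ × ℝ → Fin k) (M : Matrix (Ent n) (Ent n) ℝ) : Prop :=
  M.IsSymm ∧ ∀ F : Ent n → ℝ, linStar L χ F = linW M F

/-- The G-closure `G(L_1, …, L_k)`. -/
def linG {n k : ℕ} (L : Fin k → Matrix (Ent n) (Ent n) ℝ) : Set (Matrix (Ent n) (Ent n) ℝ) :=
  closure {M | ∃ χ : ℝ × ℝ → Fin k, IsPartition χ ∧ LinEffective L χ M}

/-- `M` is the effective tensor of the simple layering of the materials `A` (volume fraction `θ`)
and `B` (volume fraction `1 - θ`) with layers normal to `ξ`. -/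
def LinLayer {n : ℕ} (A B : Matrix (Ent n) (Ent n) ℝ) (θ : ℝ) (ξ : Fin 2 → ℝ)
    (M : Matrix (Ent n) (Ent n) ℝ) : Prop :=
  M.IsSymm ∧ ∀ F : Ent n → ℝ, linW M F =
    ⨅ a : Fin n → ℝ, (θ * linW A (F + (1 - θ) • tens ξ a) + (1 - θ) * linW B (F - θ • tens ξ a))

/-- Effective tensors of multiple-rank laminates of the phases `L_j`. -/
inductive LinLaminate {n k : ℕ} (L : Fin k → Matrix (Ent n) (Ent n) ℝ) :
    Matrix (Ent n) (Ent n) ℝ → Prop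
  | phase (j : Fin k) : LinLaminate L (L j)
  | layer (A B M : Matrix (Ent n) (Ent n) ℝ) (θ : ℝ) (ξ : Fin 2 → ℝ) :
      LinLaminate L A → LinLaminate L B → 0 < θ → θ < 1 → ξ ≠ 0 → LinLayer A B θ ξ M →
        LinLaminate L M

/-- The lamination closure `G^L(L_1, …, L_k)`. -/
def linGL {n k : ℕ} (L : Fin k → Matrix (Ent n) (Ent n) ℝ) : Set (Matrix (Ent n) (Ent n) ℝ) :=
  closure {M | LinLaminate L M}

/-- `n_L(k)`: the least `n ≥ 1` such that `G ≠ G^L` for some `k` symmetric positive definite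
phases, and `⊤` (infinity) if there is none. -/
noncomputable def nL (k : ℕ) : ℕ∞ :=
  sInf {m : ℕ∞ | ∃ n : ℕ, m = n ∧ 1 ≤ n ∧
    ∃ L : Fin k → Matrix (Ent n) (Ent n) ℝ, (∀ j, (L j).PosDef) ∧ linG L ≠ linGL L}

end Pool.Agent.Lib.MP_2a9317_an
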