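import Mathlib

set_option autoImplicit false
set_option linter.unusedSectionVars false

namespace Pool.Agent.Lib.MP_2a9317_an

open Matrix Filter Topology

/-! ### A bounded nonnegative function obeying the parallelogram law is a quadratic form -/

section
variable {ι : Type} [Fintype ι] [DecidableEq ι]

private lemma bil_zero (q : (ι → ℝ) → ℝ)
    (hpar : ∀ v w, q (v + w) + q (v - w) = 2 * q v + 2 * q w) : q 0 = 0 := by
  have := hpar 0 0
  simp only [add_zero, sub_zero] at this
  linarith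

private lemma bil_neg (q : (ι → ℝ) → ℝ)
    (hpar : ∀ v w, q (v + w) + q (v - w) = 2 * q v + 2 * q w) (w : ι → ℝ) : q (-w) = q w := by
  have := hpar 0 w
  simp only [zero_add, zero_sub, bil_zero q hpar] at this
  linarith

private lemma bil_add (q : (ι → ℝ) → ℝ)
    (hpar : ∀ v w, q (v + w) + q (v - w) = 2 * q v + 2 * q w) (v v' w : ι → ℝ) :
    (q (v + v' + w) - q (v + v' - w)) = (q (v + w) - q (v - w)) + (q (v' + w) - q (v' - w)) := by
  have key : ∀ a b c : ι → ℝ, (q (a + b + c) - q (a + b - c)) + (q (a - b + c) - q (a - b - c))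
      = 2 * (q (a + c) - q (a - c)) := by
    intro a b c
    have h1 := hpar (a + c) b
    have h2 := hpar (a - c) b
    have e1 : a + c + b = a + b + c := by abel
    have e2 : a + c - b = a - b + c := by abel
    have e3 : a - c + b = a + b - c := by abel
    have e4 : a - c - b = a - b - c := by abel
    rw [e1, e2] at h1
    rw [e3, e4] at h2
    linarith
  have dbl : ∀ a c : ι → ℝ, q (a + a + c) - q (a + a - c) = 2 * (q (a + c) - q (a - c)) := by
    intro a c
    have h := key a a c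
    have e1 : a - a + c = c := by abel
    have e2 : a - a - c = -c := by abel
    rw [e1, e2, bil_neg q hpar] at h
    linarith
  -- `a = (v + v')/2`, `b = (v - v')/2`
  have h := key ((1 / 2 : ℝ) • (v + v')) ((1 / 2 : ℝ) • (v - v')) w
  have e1 : (1 / 2 : ℝ) • (v + v') + (1 / 2 : ℝ) • (v - v') = v := by
    ext i; simp only [Pi.add_apply, Pi.smul_apply, Pi.sub_apply, smul_eq_mul]; ring
  have e2 : (1 / 2 : ℝ) • (v + v') - (1 / 2 : ℝ) • (v - v') = v' := by
    ext i; simp only [Pi.add_apply, Pi.smul_apply, Pi.sub_apply, smul_eq_mul]; ring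
  rw [e1, e2] at h
  have h2 := dbl ((1 / 2 : ℝ) • (v + v')) w
  have e3 : (1 / 2 : ℝ) • (v + v') + (1 / 2 : ℝ) • (v + v') = v + v' := by
    ext i; simp only [Pi.add_apply, Pi.smul_apply, smul_eq_mul]; ring
  rw [e3] at h2
  linarith

theorem exists_matrix_of_parallelogram (q : (ι → ℝ) → ℝ)
    (hpar : ∀ v w, q (v + w) + q (v - w) = 2 * q v + 2 * q w)
    (hnn : ∀ v, 0 ≤ q v) (C : ℝ) (hC : ∀ v, q v ≤ C * ∑ i, v i ^ 2) :
    ∃ M : Matrix ι ι ℝ, M.IsSymm ∧ ∀ v, q v = v ⬝ᵥ (M *ᵥ v) := by
  have q0 := bil_zero q hpar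
  have qneg := bil_neg q hpar
  -- the additive maps
  let f : (ι → ℝ) → ((ι → ℝ) →+ ℝ) := fun w =>
    { toFun := fun v => q (v + w) - q (v - w)
      map_zero' := by simp [qneg]
      map_add' := fun v v' => bil_add q hpar v v' w }
  have fapp : ∀ w v, f w v = q (v + w) - q (v - w) := fun _ _ => rfl
  have fsymm : ∀ w v, f w v = f v w := by
    intro w v
    rw [fapp, fapp, add_comm v w, ← qneg (v - w), neg_sub]
  have hbd : ∀ w v, ∀ n : ℕ, 0 < n → |f w v| ≤ 2 * (n * (C * ∑ i, v i ^ 2) + q w / n) := by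
    intro w v n hn
    have hn' : (0 : ℝ) < n := by exact_mod_cast hn
    have h1 : f w (n • v) = n • f w v := map_nsmul (f w) n v
    have h2 : q (n • v) = n ^ 2 * q v := by
      have h3 : f (n • v) (n • v) = n ^ 2 * f v v := by
        rw [map_nsmul, fsymm, map_nsmul]; simp only [nsmul_eq_mul]; ring
      have h4 : ∀ z, f z z = 4 * q z := by
        intro z
        have := hpar z z
        rw [fapp, sub_self, q0]
        rw [sub_self, q0] at this
        linarith
      rw [h4, h4] at h3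
      linarith
    have h5 : |f w (n • v)| ≤ 2 * q (n • v) + 2 * q w := by
      rw [fapp, abs_le]
      have := hpar (n • v) w
      constructor <;> linarith [hnn (n • v + w), hnn (n • v - w)]
    rw [h1, h2, nsmul_eq_mul, abs_mul, abs_of_pos hn'] at h5
    have h6 : |f w v| ≤ (2 * (n ^ 2 * q v) + 2 * q w) / n := by
      rw [le_div_iff₀ hn']; linarith
    have h7 : (2 * ((n : ℝ) ^ 2 * q v) + 2 * q w) / n = 2 * (n * q v + q w / n) := by
      field_simp
    rw [h7] at h6
    have := hC v
    have h8 : (n : ℝ) * q v ≤ n * (C * ∑ i, v i ^ 2) := mul_le_mul_of_nonneg_left this hn'.le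
    linarith
  have hcont : ∀ w, Continuous (f w) := by
    intro w
    apply continuous_of_continuousAt_zero (f w)
    rw [Metric.continuousAt_iff']
    intro ε hε
    obtain ⟨n, hn⟩ := exists_nat_gt (4 * q w / ε)
    have hn0 : 0 ≤ 4 * q w / ε := by have := hnn w; positivity
    have hnpos : (0 : ℝ) < n := lt_of_le_of_lt hn0 hn
    have hnn' : 0 < n := by exact_mod_cast hnpos
    have h1 : q w / n ≤ ε / 4 := by
      rw [div_lt_iff₀ hε] at hn
      rw [div_le_iff₀ hnpos]
      linarith
    have hc : ContinuousAt (fun v : ι → ℝ => 2 * ((n : ℝ) * (C * ∑ i, v i ^ 2))) 0 := by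
      have hs : Continuous (fun v : ι → ℝ => ∑ i, v i ^ 2) :=
        continuous_finsetSum _ (fun i _ => (continuous_apply i).pow 2)
      exact (continuous_const.mul (continuous_const.mul (continuous_const.mul hs))).continuousAt
    rw [Metric.continuousAt_iff'] at hc
    filter_upwards [hc (ε / 2) (by linarith)] with v hv
    rw [map_zero, Real.dist_eq, sub_zero]
    rw [Real.dist_eq] at hv
    have hz : (2 * ((n : ℝ) * (C * ∑ i : ι, (0 : ι → ℝ) i ^ 2))) = 0 := by simp
    rw [hz, sub_zero] at hv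
    have h2 := hbd w v n hnn'
    have h3 := le_abs_self (2 * ((n : ℝ) * (C * ∑ i, v i ^ 2)))
    linarith
  let g : (ι → ℝ) → ((ι → ℝ) →L[ℝ] ℝ) := fun w => (f w).toRealLinearMap (hcont w)
  have gapp : ∀ w v, g w v = f w v := fun _ _ => rfl
  refine ⟨fun i j => (1 / 4) * f (Pi.single j 1) (Pi.single i 1), ?_, ?_⟩
  · ext i j
    simp only [Matrix.transpose_apply]
    rw [fsymm]
  · intro v
    have hv : ∀ z : ι → ℝ, z = ∑ i, z i • (Pi.single i (1 : ℝ) : ι → ℝ) := by
      intro z
      ext j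
      simp [Finset.sum_apply, Pi.single_apply]
    have h4 : 4 * q v = f v v := by
      have := hpar v v
      rw [fapp, sub_self, q0]
      rw [sub_self, q0] at this
      linarith
    have h5 : ∀ w z : ι → ℝ, f w z = ∑ i, z i * f w (Pi.single i 1) := by
      intro w z
      rw [← gapp]
      conv_lhs => rw [hv z]
      rw [map_sum]
      apply Finset.sum_congr rfl
      intro i _
      rw [map_smul, smul_eq_mul, gapp]
    have h6 : f v v = ∑ i, v i * ∑ j, v j * f (Pi.single j 1) (Pi.single i 1) := by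
      rw [h5 v v]
      apply Finset.sum_congr rfl
      intro i _
      congr 1
      rw [fsymm v (Pi.single i 1), h5]
      apply Finset.sum_congr rfl
      intro j _
      rw [fsymm]
    have h7 : v ⬝ᵥ ((fun i j => (1 / 4) * f (Pi.single j 1) (Pi.single i 1) : Matrix ι ι ℝ) *ᵥ v)
        = (1 / 4) * ∑ i, v i * ∑ j, v j * f (Pi.single j 1) (Pi.single i 1) := by
      simp only [dotProduct, mulVec, Finset.mul_sum]
      apply Finset.sum_congr rfl
      intro i _
      apply Finset.sum_congr rfl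
      intro j _
      ring
    rw [h7, ← h6, ← h4]
    ring

/-- Infimum over the fibres of a nonnegative quadratic functional is a quadratic form. -/
theorem exists_matrix_of_iInf {U : Type} [AddCommGroup U] [Module ℝ U]
    (Q : (ι → ℝ) → U → ℝ)
    (hpar : ∀ v w u u', Q (v + w) (u + u') + Q (v - w) (u - u') = 2 * Q v u + 2 * Q w u')
    (hnn : ∀ v u, 0 ≤ Q v u) (C : ℝ) (hC : ∀ v, Q v 0 ≤ C * ∑ i, v i ^ 2) :
    ∃ M : Matrix ι ι ℝ, M.IsSymm ∧ ∀ v, (⨅ u, Q v u) = v ⬝ᵥ (M *ᵥ v) := by
  have hbdd : ∀ v, BddBelow (Set.range (Q v)) := by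
    intro v
    refine ⟨0, ?_⟩
    rintro _ ⟨u, rfl⟩
    exact hnn v u
  have hsub : ∀ v w, (⨅ u, Q (v + w) u) + (⨅ u, Q (v - w) u)
      ≤ 2 * (⨅ u, Q v u) + 2 * (⨅ u, Q w u) := by
    intro v w
    have h1 : ∀ u u', (⨅ u, Q (v + w) u) + (⨅ u, Q (v - w) u) ≤ 2 * Q v u + 2 * Q w u' := by
      intro u u'
      rw [← hpar]
      exact add_le_add (ciInf_le (hbdd _) _) (ciInf_le (hbdd _) _)
    have h2 : ∀ u', ((⨅ u, Q (v + w) u) + (⨅ u, Q (v - w) u) - 2 * Q w u') / 2
        ≤ ⨅ u, Q v u := by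
      intro u'
      apply le_ciInf
      intro u
      have := h1 u u'
      linarith
    have h3 : ((⨅ u, Q (v + w) u) + (⨅ u, Q (v - w) u) - 2 * ⨅ u, Q v u) / 2 ≤ ⨅ u, Q w u := by
      apply le_ciInf
      intro u'
      have := h2 u'
      linarith
    linarith
  have hdbl : ∀ v, 4 * (⨅ u, Q v u) ≤ ⨅ u, Q (v + v) u := by
    intro v
    apply le_ciInf
    intro u
    have hq0 : Q 0 0 = 0 := by
      have := hpar 0 0 0 0
      simp only [add_zero, sub_zero] at this
      linarith
    have h := hpar v v ((1 / 2 : ℝ) • u) ((1 / 2 : ℝ) • u)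
    have e1 : (1 / 2 : ℝ) • u + (1 / 2 : ℝ) • u = u := by
      rw [← add_smul]; norm_num
    rw [e1, sub_self, sub_self, hq0] at h
    have := ciInf_le (hbdd v) ((1 / 2 : ℝ) • u)
    linarith
  apply exists_matrix_of_parallelogram (fun v => ⨅ u, Q v u) _ (fun v => le_ciInf (hnn v)) C
    (fun v => (ciInf_le (hbdd v) 0).trans (hC v))
  intro v w
  apply le_antisymm (hsub v w)
  have h1 := hsub (v + w) (v - w)
  have e1 : v + w + (v - w) = v + v := by abel
  have e2 : v + w - (v - w) = w + w := by abel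
  rw [e1, e2] at h1
  have h2 := hdbl v
  have h3 := hdbl w
  show 2 * (⨅ u, Q v u) + 2 * (⨅ u, Q w u) ≤ (⨅ u, Q (v + w) u) + (⨅ u, Q (v - w) u)
  linarith

end

end Pool.Agent.Lib.MP_2a9317_an
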