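import Pool.Agent.Lib.MP_2a9317_an.Defs
import Pool.Agent.Lib.MP_2a9317_an.Quad

set_option autoImplicit false
set_option linter.unusedSectionVars false

namespace Pool.Agent.Lib.MP_2a9317_an

open MeasureTheory Matrix
open scoped ContDiff

/-- the unit cell -/
def cell : Set (ℝ × ℝ) := Set.Icc (0 : ℝ) 1 ×ˢ Set.Icc (0 : ℝ) 1

lemma isCompact_cell : IsCompact cell := isCompact_Icc.prod isCompact_Icc

lemma measurableSet_cell : MeasurableSet cell := measurableSet_Icc.prod measurableSet_Icc

lemma volume_cell : (volume : Measure (ℝ × ℝ)) cell = 1 := by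
  rw [cell, Measure.volume_eq_prod, Measure.prod_prod]
  simp

lemma avg_eq (f : ℝ × ℝ → ℝ) : avg f = ∫ p in cell, f p := rfl

lemma avg_const (c : ℝ) : avg (fun _ => c) = c := by
  rw [avg_eq, setIntegral_const]
  simp [Measure.real, volume_cell]

lemma avg_add {f g : ℝ × ℝ → ℝ} (hf : IntegrableOn f cell) (hg : IntegrableOn g cell) :
    avg (fun p => f p + g p) = avg f + avg g := integral_add hf hg

lemma avg_mul (c : ℝ) (f : ℝ × ℝ → ℝ) : avg (fun p => c * f p) = c * avg f :=
  integral_const_mul c f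

lemma avg_mono {f g : ℝ × ℝ → ℝ} (hf : IntegrableOn f cell) (hg : IntegrableOn g cell)
    (h : ∀ p, f p ≤ g p) : avg f ≤ avg g := setIntegral_mono hf hg h

lemma avg_nonneg {f : ℝ × ℝ → ℝ} (h : ∀ p, 0 ≤ f p) : 0 ≤ avg f :=
  integral_nonneg h

lemma avg_prod (f g : ℝ → ℝ) : avg (fun p => f p.1 * g p.2)
    = (∫ x in Set.Icc (0 : ℝ) 1, f x) * ∫ y in Set.Icc (0 : ℝ) 1, g y := by
  rw [avg, Measure.volume_eq_prod]
  exact setIntegral_prod_mul f g _ _

section
variable {ι : Type} [Fintype ι] [DecidableEq ι] {k n : ℕ}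

lemma integrable_quad (K : Fin k → Matrix ι ι ℝ) {χ : ℝ × ℝ → Fin k} (hχ : Measurable χ)
    {a b : ℝ × ℝ → ι → ℝ} (ha : Continuous a) (hb : Continuous b) :
    IntegrableOn (fun p => a p ⬝ᵥ (K (χ p) *ᵥ b p)) cell := by
  simp only [dotProduct, mulVec, Finset.mul_sum]
  refine integrable_finsetSum _ fun i _ => integrable_finsetSum _ fun j _ => ?_
  have h1 : (fun p => a p i * (K (χ p) i j * b p j))
      = fun p => (K (χ p) i j) * (a p i * b p j) := by ext p; ring
  rw [h1]
  have hc : IntegrableOn (fun p => a p i * b p j) cell := by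
    apply ContinuousOn.integrableOn_compact isCompact_cell
    exact ((((continuous_apply i).comp ha)).mul ((continuous_apply j).comp hb)).continuousOn
  have hm : Measurable (fun p => K (χ p) i j) :=
    (measurable_from_top (f := fun c : Fin k => K c i j)).comp hχ
  refine Integrable.bdd_mul (c := ∑ c : Fin k, |K c i j|) hc hm.aestronglyMeasurable ?_
  refine Filter.Eventually.of_forall fun p => ?_
  rw [Real.norm_eq_abs]
  exact Finset.single_le_sum (f := fun c : Fin k => |K c i j|) (fun _ _ => abs_nonneg _)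
    (Finset.mem_univ (χ p))

/-- the smooth periodic potentials form a vector space -/
def potSub (n : ℕ) : Submodule ℝ (ℝ × ℝ → Fin n → ℝ) where
  carrier := {u | IsPotential u}
  zero_mem' := ⟨contDiff_const, fun _ _ => ⟨rfl, rfl⟩⟩
  add_mem' := by
    rintro u v ⟨hu, hu'⟩ ⟨hv, hv'⟩
    refine ⟨hu.add hv, fun x y => ⟨?_, ?_⟩⟩
    · rw [Pi.add_apply, Pi.add_apply, (hu' x y).1, (hv' x y).1]
    · rw [Pi.add_apply, Pi.add_apply, (hu' x y).2, (hv' x y).2]
  smul_mem' := by
    rintro c u ⟨hu, hu'⟩
    refine ⟨hu.const_smul c, fun x y => ⟨?_, ?_⟩⟩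
    · rw [Pi.smul_apply, Pi.smul_apply, (hu' x y).1]
    · rw [Pi.smul_apply, Pi.smul_apply, (hu' x y).2]

lemma grad_add {u v : ℝ × ℝ → Fin n → ℝ} (hu : IsPotential u) (hv : IsPotential v) (p : ℝ × ℝ) :
    grad (u + v) p = grad u p + grad v p := by
  have h1 : DifferentiableAt ℝ u p := (hu.1.differentiable (by simp)).differentiableAt
  have h2 : DifferentiableAt ℝ v p := (hv.1.differentiable (by simp)).differentiableAt
  ext q
  simp only [grad, Pi.add_apply]
  rw [fderiv_add h1 h2]
  rfl

lemma grad_sub {u v : ℝ × ℝ → Fin n → ℝ} (hu : IsPotential u) (hv : IsPotential v) (p : ℝ × ℝ) :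
    grad (u - v) p = grad u p - grad v p := by
  have h1 : DifferentiableAt ℝ u p := (hu.1.differentiable (by simp)).differentiableAt
  have h2 : DifferentiableAt ℝ v p := (hv.1.differentiable (by simp)).differentiableAt
  ext q
  simp only [grad, Pi.sub_apply]
  rw [fderiv_sub h1 h2]
  rfl

lemma grad_zero (p : ℝ × ℝ) : grad (0 : ℝ × ℝ → Fin n → ℝ) p = 0 := by
  ext q
  simp only [grad]
  have : (0 : ℝ × ℝ → Fin n → ℝ) = fun _ => 0 := rfl
  rw [this, fderiv_fun_const]
  rfl

lemma continuous_grad {u : ℝ × ℝ → Fin n → ℝ} (hu : IsPotential u) : Continuous (grad u) := by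
  apply continuous_pi
  intro q
  have h : Continuous (fderiv ℝ u) := hu.1.continuous_fderiv (by simp)
  exact (continuous_apply q.2).comp (h.clm_apply continuous_const)

/-- Existence of the effective matrix: the effective energy is a quadratic form. -/
theorem exists_effective (J : (Ent n → ℝ) →ₗ[ℝ] (ι → ℝ)) (hJ : Continuous J)
    (K : Fin k → Matrix ι ι ℝ) (hK : ∀ j, (K j).PosDef)
    {χ : ℝ × ℝ → Fin k} (hχ : Measurable χ) :
    ∃ M : Matrix ι ι ℝ, M.IsSymm ∧ ∀ v : ι → ℝ,
      (⨅ u : {u : ℝ × ℝ → Fin n → ℝ // IsPotential u},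
        avg fun p => (v + J (grad u.1 p)) ⬝ᵥ (K (χ p) *ᵥ (v + J (grad u.1 p))))
      = v ⬝ᵥ (M *ᵥ v) := by
  have hpsd : ∀ j (x : ι → ℝ), 0 ≤ x ⬝ᵥ (K j *ᵥ x) := by
    intro j x
    have := (hK j).posSemidef.dotProduct_mulVec_nonneg x
    simpa using this
  let Q : (ι → ℝ) → potSub n → ℝ := fun v u =>
    avg fun p => (v + J (grad u.1 p)) ⬝ᵥ (K (χ p) *ᵥ (v + J (grad u.1 p)))
  have hcont : ∀ (v : ι → ℝ) (u : potSub n), Continuous (fun p => v + J (grad u.1 p)) :=
    fun v u => continuous_const.add (hJ.comp (continuous_grad u.2))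
  refine exists_matrix_of_iInf (U := potSub n) Q ?_ ?_ (∑ c : Fin k, ∑ i, ∑ j, |K c i j|) ?_
  · intro v w u u'
    have e1 : ∀ p, v + w + J (grad (u + u').1 p) = (v + J (grad u.1 p)) + (w + J (grad u'.1 p)) := by
      intro p
      have : grad (u + u').1 p = grad u.1 p + grad u'.1 p := grad_add u.2 u'.2 p
      rw [this, map_add]; abel
    have e2 : ∀ p, v - w + J (grad (u - u').1 p) = (v + J (grad u.1 p)) - (w + J (grad u'.1 p)) := by
      intro p
      have : grad (u - u').1 p = grad u.1 p - grad u'.1 p := grad_sub u.2 u'.2 p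
      rw [this, map_sub]; abel
    simp only [Q]
    rw [← avg_add (integrable_quad K hχ (hcont _ _) (hcont _ _))
      (integrable_quad K hχ (hcont _ _) (hcont _ _)), ← avg_mul, ← avg_mul,
      ← avg_add ((integrable_quad K hχ (hcont _ _) (hcont _ _)).const_mul 2)
      ((integrable_quad K hχ (hcont _ _) (hcont _ _)).const_mul 2)]
    congr 1
    ext p
    rw [e1, e2]
    simp only [mulVec_add, mulVec_sub, add_dotProduct, sub_dotProduct, dotProduct_add,
      dotProduct_sub]
    ring
  · intro v u
    exact avg_nonneg fun p => hpsd _ _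
  · intro v
    simp only [Q]
    have e0 : ∀ p, v + J (grad (0 : potSub n).1 p) = v := by
      intro p
      have : grad (0 : potSub n).1 p = 0 := grad_zero p
      rw [this, map_zero, add_zero]
    simp only [e0]
    calc avg (fun p => v ⬝ᵥ (K (χ p) *ᵥ v))
        ≤ avg (fun _ => (∑ c : Fin k, ∑ i, ∑ j, |K c i j|) * ∑ i, v i ^ 2) := by
          apply avg_mono (integrable_quad K hχ continuous_const continuous_const)
          · exact (continuous_const.continuousOn).integrableOn_compact isCompact_cell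
          · intro p
            have h1 : v ⬝ᵥ (K (χ p) *ᵥ v) ≤ (∑ i, ∑ j, |K (χ p) i j|) * ∑ i, v i ^ 2 := by
              rw [Finset.sum_mul]
              show ∑ i, v i * ∑ j, K (χ p) i j * v j ≤ _
              refine Finset.sum_le_sum fun i _ => ?_
              rw [Finset.mul_sum, Finset.sum_mul]
              refine Finset.sum_le_sum fun j _ => ?_
              have hi : v i ^ 2 ≤ ∑ l, v l ^ 2 :=
                Finset.single_le_sum (f := fun l => v l ^ 2) (fun l _ => sq_nonneg _)
                  (Finset.mem_univ i)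
              have hj : v j ^ 2 ≤ ∑ l, v l ^ 2 :=
                Finset.single_le_sum (f := fun l => v l ^ 2) (fun l _ => sq_nonneg _)
                  (Finset.mem_univ j)
              have hij : |v i * v j| ≤ ∑ l, v l ^ 2 := by
                rw [abs_le]
                constructor <;> nlinarith [sq_nonneg (v i + v j), sq_nonneg (v i - v j)]
              calc v i * (K (χ p) i j * v j) = K (χ p) i j * (v i * v j) := by ring
                _ ≤ |K (χ p) i j * (v i * v j)| := le_abs_self _
                _ = |K (χ p) i j| * |v i * v j| := abs_mul _ _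
                _ ≤ |K (χ p) i j| * ∑ l, v l ^ 2 :=
                  mul_le_mul_of_nonneg_left hij (abs_nonneg _)
            refine h1.trans ?_
            apply mul_le_mul_of_nonneg_right _ (Finset.sum_nonneg fun i _ => sq_nonneg _)
            exact Finset.single_le_sum (f := fun c : Fin k => ∑ i, ∑ j, |K c i j|)
              (fun c _ => Finset.sum_nonneg fun i _ => Finset.sum_nonneg fun j _ => abs_nonneg _)
              (Finset.mem_univ (χ p))
      _ = _ := avg_const _

end

end Pool.Agent.Lib.MP_2a9317_an
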