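import Pool.Agent.Lib.MP_2a9317_an.AffFinal

set_option autoImplicit false

namespace Pool.Agent.Lib.MP_2a9317_an

open MeasureTheory Matrix Real
open scoped ContDiff

/-! ### The linear problem, n = 2 (the second field is very stiff) -/

/-- 2 × 2 matrices, the first column is `(x, y)`, the second `(z, t)` -/
def pt4 (x y z t : ℝ) : Ent 2 → ℝ := fun q =>
  if q.2 = 0 then (if q.1 = 0 then x else y) else (if q.1 = 0 then z else t)

/-- stiffness of the second field -/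
noncomputable def Nst : ℝ := 10 ^ 30

/-- small parameter -/
noncomputable def dd : ℝ := 1 / 10 ^ 30

/-- the matrix of the phase `(a, b)` -/
noncomputable def LL (a b : ℝ) : Matrix (Ent 2) (Ent 2) ℝ := fun i j =>
  (1 + ee * (1 + a)) * (pt4 1 (-(1 / 2)) 0 0 i * pt4 1 (-(1 / 2)) 0 0 j)
  + (3 / 4) * (pt4 0 1 0 0 i * pt4 0 1 0 0 j)
  + ee * (1 + b) * (pt4 (-(1 / 2)) 1 0 0 i * pt4 (-(1 / 2)) 1 0 0 j)
  + ee * (1 - a * b) * (pt4 (1 / 2) (1 / 2) 1 0 i * pt4 (1 / 2) (1 / 2) 1 0 j)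
  + (kap a b + Nst) * (pt4 0 0 1 0 i * pt4 0 0 1 0 j)
  + Nst * (pt4 0 0 0 1 i * pt4 0 0 0 1 j)

lemma LL_quad (a b : ℝ) (v : Ent 2 → ℝ) :
    v ⬝ᵥ (LL a b *ᵥ v) = WW a b (v (0, 0)) (v (1, 0)) (v (0, 1))
      + Nst * (v (0, 1) ^ 2 + v (1, 1) ^ 2) := by
  simp only [dotProduct, mulVec, LL, pt4, Fintype.sum_prod_type,
    Fin.sum_univ_two, WW, NN]
  simp
  ring

lemma LL_symm (a b : ℝ) : (LL a b).IsSymm := by
  ext i j
  simp only [Matrix.transpose_apply, LL]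
  ring

/-- the `k` phases -/
noncomputable def LF (k : ℕ) (j : Fin k) : Matrix (Ent 2) (Ent 2) ℝ :=
  LL (sa j.val) (sb j.val) + ((j.val - 3 : ℕ) : ℝ) • (1 : Matrix (Ent 2) (Ent 2) ℝ)

lemma LF_quad (k : ℕ) (j : Fin k) (v : Ent 2 → ℝ) :
    v ⬝ᵥ (LF k j *ᵥ v) = WW (sa j.val) (sb j.val) (v (0, 0)) (v (1, 0)) (v (0, 1))
      + Nst * (v (0, 1) ^ 2 + v (1, 1) ^ 2) + ((j.val - 3 : ℕ) : ℝ) * (v ⬝ᵥ v) := by
  rw [LF, add_mulVec, dotProduct_add, LL_quad, smul_mulVec, one_mulVec, dotProduct_smul,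
    smul_eq_mul]

lemma LF_posDef (k : ℕ) (j : Fin k) : (LF k j).PosDef := by
  refine Matrix.PosDef.of_dotProduct_mulVec_pos ?_ ?_
  · rw [Matrix.IsHermitian]
    ext i l
    simp only [Matrix.conjTranspose_apply, star_trivial]
    have h1 := congrFun (congrFun (LL_symm (sa j.val) (sb j.val)) i) l
    rw [Matrix.transpose_apply] at h1
    simp only [LF, Matrix.add_apply, Matrix.smul_apply, h1, Matrix.one_apply, eq_comm]
  · intro v hv
    rw [star_trivial, LF_quad]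
    have h1 : 0 ≤ ((j.val - 3 : ℕ) : ℝ) * (v ⬝ᵥ v) := mul_nonneg (Nat.cast_nonneg _) (dot_self_nonneg v)
    have hN : (0 : ℝ) < Nst := by unfold Nst; positivity
    have h4 : 0 ≤ Nst * (v (0, 1) ^ 2 + v (1, 1) ^ 2) := by positivity
    by_cases h : v (0, 0) = 0 ∧ v (1, 0) = 0 ∧ v (0, 1) = 0
    · have h5 : v (1, 1) ≠ 0 := by
        intro h5
        apply hv
        ext ⟨i, l⟩
        fin_cases i <;> fin_cases l
        · exact h.1
        · exact h.2.2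
        · exact h.2.1
        · exact h5
      have h6 : 0 < Nst * (v (0, 1) ^ 2 + v (1, 1) ^ 2) := by positivity
      have h7 : WW (sa j.val) (sb j.val) (v (0, 0)) (v (1, 0)) (v (0, 1)) = 0 := by
        rw [h.1, h.2.1, h.2.2]; unfold WW NN; ring
      linarith
    · have h2 := WW_pos (sa_sign j.val) (sb_sign j.val) (v (0, 0)) (v (1, 0)) (v (0, 1)) h
      linarith

lemma LF_diag0 (k : ℕ) (j : Fin k) : LF k j (0, 0) (0, 0)
    = 1 + ee * ((1 + sa j.val) + (1 + sb j.val) / 4 + (1 - sa j.val * sb j.val) / 4)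
      + ((j.val - 3 : ℕ) : ℝ) := by
  simp only [LF, LL, Matrix.add_apply, Matrix.smul_apply, Matrix.one_apply, pt4]
  simp
  ring

lemma LF_diag1 (k : ℕ) (j : Fin k) : LF k j (1, 0) (1, 0)
    = 1 + ee * ((1 + sa j.val) / 4 + (1 + sb j.val) + (1 - sa j.val * sb j.val) / 4)
      + ((j.val - 3 : ℕ) : ℝ) := by
  simp only [LF, LL, Matrix.add_apply, Matrix.smul_apply, Matrix.one_apply, pt4]
  simp
  ring

lemma LF_injective (k : ℕ) : Function.Injective (LF k) := by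
  intro i j hij
  apply Fin.ext
  apply signs_inj
  · have h := LF_diag0 k i
    rw [hij, LF_diag0 k j] at h
    linarith
  · have h := LF_diag1 k i
    rw [hij, LF_diag1 k j] at h
    linarith

/-- the stiff phases control the affine ones -/
lemma stiff_bound {a b : ℝ} (ha : IsSign a) (hb : IsSign b) (x y z t : ℝ) :
    (1 - dd) * WW a b x y 1 + Nst * (2 * z - 1) - 2 * dd
      ≤ WW a b x y z + Nst * (z ^ 2 + t ^ 2) := by
  have hE := ee_pos.le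
  have h1 : 0 ≤ 1 + a := by rcases ha with rfl | rfl <;> norm_num
  have h2 : 0 ≤ 1 + b := by rcases hb with rfl | rfl <;> norm_num
  have h3 : 0 ≤ 1 - a * b := by
    rcases ha with rfl | rfl <;> rcases hb with rfl | rfl <;> norm_num
  have h3' : 1 - a * b ≤ 2 := by
    rcases ha with rfl | rfl <;> rcases hb with rfl | rfl <;> norm_num
  obtain ⟨hk1, hk2⟩ := kap_bounds ha hb
  set P := (x + y) / 2 + 1 with hP
  set u := z - 1 with hu
  have hN0 := NN_nonneg x y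
  have hNst : Nst = 10 ^ 30 := rfl
  have hdd : dd = 1 / 10 ^ 30 := rfl
  have hee : ee = 1 / 10 ^ 9 := rfl
  have hWW1 : ee * (1 - a * b) * P ^ 2 ≤ WW a b x y 1 := by
    have t1 : 0 ≤ ee * (1 + a) * (x - y / 2) ^ 2 := by positivity
    have t2 : 0 ≤ ee * (1 + b) * (y - x / 2) ^ 2 := by positivity
    unfold WW
    rw [← hP]
    linarith
  have hWz : WW a b x y z = WW a b x y 1 + 2 * u * (ee * (1 - a * b) * P) + 2 * u * kap a b
      + u ^ 2 * (ee * (1 - a * b) + kap a b) := by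
    unfold WW
    rw [hP, hu]
    ring
  have hz : z ^ 2 = (2 * z - 1) + u ^ 2 := by rw [hu]; ring
  have hq0 : 0 ≤ ee * (1 - a * b) := mul_nonneg hE h3
  -- first cross term
  have hc1 : -(dd * WW a b x y 1) - (ee * (1 - a * b)) * 10 ^ 30 * u ^ 2
      ≤ 2 * u * (ee * (1 - a * b) * P) := by
    have e1 : dd * (ee * (1 - a * b) * P ^ 2) ≤ dd * WW a b x y 1 :=
      mul_le_mul_of_nonneg_left hWW1 (by rw [hdd]; positivity)
    have e2 : 0 ≤ (ee * (1 - a * b)) * (dd * P ^ 2 + 2 * u * P + 10 ^ 30 * u ^ 2) := by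
      apply mul_nonneg hq0
      have : dd * P ^ 2 + 2 * u * P + 10 ^ 30 * u ^ 2 = (10 ^ 15 * u + P / 10 ^ 15) ^ 2 := by
        rw [hdd]; ring
      rw [this]
      exact sq_nonneg _
    nlinarith
  have hq1 : ee * (1 - a * b) ≤ 1 / 4 := by rw [hee]; linarith
  have hc1' : (ee * (1 - a * b)) * 10 ^ 30 * u ^ 2 ≤ (1 / 4) * 10 ^ 30 * u ^ 2 := by
    have := sq_nonneg u
    have h10 : (0 : ℝ) ≤ 10 ^ 30 * u ^ 2 := by positivity
    nlinarith [mul_le_mul_of_nonneg_right hq1 h10]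
  -- second cross term
  have hc2 : -(2 * dd) - (1 / 2) * 10 ^ 30 * u ^ 2 ≤ 2 * u * kap a b := by
    have e3 : 0 ≤ ((10 ^ 15 : ℝ) * u + 2 * kap a b / 10 ^ 15) ^ 2 := sq_nonneg _
    have e4 : ((10 ^ 15 : ℝ) * u + 2 * kap a b / 10 ^ 15) ^ 2
        = 10 ^ 30 * u ^ 2 + 4 * u * kap a b + 4 * kap a b ^ 2 * dd := by
      rw [hdd]; ring
    have e5 : kap a b ^ 2 * dd ≤ dd := by
      have : kap a b ^ 2 ≤ 1 := by nlinarith
      have hd0 : 0 ≤ dd := by rw [hdd]; positivity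
      nlinarith
    rw [e4] at e3
    linarith
  have hq2 : 0 ≤ u ^ 2 * (ee * (1 - a * b) + kap a b) := by
    apply mul_nonneg (sq_nonneg _); linarith
  have ht : 0 ≤ Nst * t ^ 2 := by rw [hNst]; positivity
  have hu2 := sq_nonneg u
  have hfin : Nst * (z ^ 2 + t ^ 2) = Nst * (2 * z - 1) + 10 ^ 30 * u ^ 2 + Nst * t ^ 2 := by
    rw [hz, hNst]; ring
  rw [hWz, hfin]
  have hu3 : (0 : ℝ) ≤ 10 ^ 30 * u ^ 2 := by positivity
  linarith

/-- the energy of the three test fields -/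
noncomputable def linTE (M : Matrix (Ent 2) (Ent 2) ℝ) (z1 t1 z2 t2 z3 t3 : ℝ)
    (x1 y1 x2 y2 x3 y3 : ℝ) : ℝ :=
  TE (fun x y => linW M (pt4 x y z1 t1)) (fun x y => linW M (pt4 x y z2 t2))
    (fun x y => linW M (pt4 x y z3 t3)) x1 y1 x2 y2 x3 y3

/-- affine terms of the stiff field -/
noncomputable def stiffTerm (z1 z2 z3 : ℝ) : ℝ :=
  Nst * (Lam * (2 * z1 - 1) + Lam * (2 * z2 - 1) + (2 * z3 - 1)) - (2 * Lam + 1) * (2 * dd)

/-- the invariant of laminates -/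
def LinInv (M : Matrix (Ent 2) (Ent 2) ℝ) : Prop :=
  ∃ r s w e : ℝ, |r| ≤ 1 ∧ |s| ≤ 1 ∧ |w| ≤ 1 ∧ 3 / 4 * gg r s w ≤ e ∧
    ∀ z1 t1 z2 t2 z3 t3 x1 y1 x2 y2 x3 y3 : ℝ,
      (1 - dd) * (BB + Low r s w e x1 y1 x2 y2 x3 y3) + stiffTerm z1 z2 z3
        ≤ linTE M z1 t1 z2 t2 z3 t3 x1 y1 x2 y2 x3 y3

lemma linW_LF (k : ℕ) (j : Fin k) (x y z t : ℝ) :
    (1 - dd) * WW (sa j.val) (sb j.val) x y 1 + Nst * (2 * z - 1) - 2 * dd
      ≤ linW (LF k j) (pt4 x y z t) := by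
  rw [linW, LF_quad]
  have h1 : 0 ≤ ((j.val - 3 : ℕ) : ℝ) * (pt4 x y z t ⬝ᵥ pt4 x y z t) :=
    mul_nonneg (Nat.cast_nonneg _) (dot_self_nonneg _)
  have h2 : pt4 x y z t (0, 0) = x := rfl
  have h3 : pt4 x y z t (1, 0) = y := rfl
  have h4 : pt4 x y z t (0, 1) = z := rfl
  have h5 : pt4 x y z t (1, 1) = t := rfl
  rw [h2, h3, h4, h5]
  have := stiff_bound (sa_sign j.val) (sb_sign j.val) x y z t
  linarith

lemma linInv_phase (k : ℕ) (j : Fin k) : LinInv (LF k j) := by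
  refine ⟨sa j.val, sb j.val, sa j.val * sb j.val, 0, sign_abs (sa_sign _), sign_abs (sb_sign _),
    sign_mul_abs (sa_sign _) (sb_sign _), gg_phase (sa_sign _) (sb_sign _), ?_⟩
  intro z1 t1 z2 t2 z3 t3 x1 y1 x2 y2 x3 y3
  have h := low_le_phase (sa_sign j.val) (sb_sign j.val) x1 y1 x2 y2 x3 y3
  have hd : 0 ≤ 1 - dd := by unfold dd; norm_num
  have h' := mul_le_mul_of_nonneg_left h hd
  have h2 := TE_mono (fun x y => linW_LF k j x y z1 t1) (fun x y => linW_LF k j x y z2 t2)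
    (fun x y => linW_LF k j x y z3 t3) x1 y1 x2 y2 x3 y3
  have h3 : TE (fun x y => (1 - dd) * WW (sa j.val) (sb j.val) x y 1 + Nst * (2 * z1 - 1) - 2 * dd)
      (fun x y => (1 - dd) * WW (sa j.val) (sb j.val) x y 1 + Nst * (2 * z2 - 1) - 2 * dd)
      (fun x y => (1 - dd) * WW (sa j.val) (sb j.val) x y 1 + Nst * (2 * z3 - 1) - 2 * dd)
      x1 y1 x2 y2 x3 y3
      = (1 - dd) * TE (fun x y => WW (sa j.val) (sb j.val) x y 1)
        (fun x y => WW (sa j.val) (sb j.val) x y 1) (fun x y => WW (sa j.val) (sb j.val) x y 1)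
        x1 y1 x2 y2 x3 y3 + stiffTerm z1 z2 z3 := by
    unfold TE stiffTerm; ring
  unfold linTE
  rw [h3] at h2
  linarith

lemma linInv_layer {A B M : Matrix (Ent 2) (Ent 2) ℝ} {θ : ℝ} {ξ : Fin 2 → ℝ}
    (hA : LinInv A) (hB : LinInv B) (h0 : 0 < θ) (h1 : θ < 1) (hξ : ξ ≠ 0)
    (hM : LinLayer A B θ ξ M) : LinInv M := by
  obtain ⟨r1, s1, w1, e1, hr1, hs1, hw1, he1, H1⟩ := hA
  obtain ⟨r2, s2, w2, e2, hr2, hs2, hw2, he2, H2⟩ := hB
  have hN : 0 < NN (ξ 0) (ξ 1) := by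
    apply NN_pos
    rintro ⟨h2, h3⟩
    apply hξ
    ext i
    fin_cases i
    · exact h2
    · exact h3
  refine ⟨θ * r1 + (1 - θ) * r2, θ * s1 + (1 - θ) * s2, θ * w1 + (1 - θ) * w2,
    exc θ r1 s1 w1 e1 r2 s2 w2 e2 (ξ 0) (ξ 1), abs_comb h0.le h1.le hr1 hr2,
    abs_comb h0.le h1.le hs1 hs2, abs_comb h0.le h1.le hw1 hw2,
    exc_ge h0.le h1.le hr1 hs1 hw1 hr2 hs2 hw2 hN he1 he2, ?_⟩
  intro z1 t1 z2 t2 z3 t3 x1 y1 x2 y2 x3 y3
  -- approximate minimisers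
  have happ : ∀ x y z t η : ℝ, 0 < η → ∃ a b : ℝ,
      θ * linW A (pt4 (x + (1 - θ) * (ξ 0 * a)) (y + (1 - θ) * (ξ 1 * a))
        (z + (1 - θ) * (ξ 0 * b)) (t + (1 - θ) * (ξ 1 * b)))
      + (1 - θ) * linW B (pt4 (x - θ * (ξ 0 * a)) (y - θ * (ξ 1 * a))
        (z - θ * (ξ 0 * b)) (t - θ * (ξ 1 * b))) < linW M (pt4 x y z t) + η := by
    intro x y z t η hη
    have h2 := hM.2 (pt4 x y z t)
    have h5 : (⨅ a : Fin 2 → ℝ, (θ * linW A (pt4 x y z t + (1 - θ) • tens ξ a)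
        + (1 - θ) * linW B (pt4 x y z t - θ • tens ξ a))) < linW M (pt4 x y z t) + η := by
      rw [← h2]; linarith
    obtain ⟨a, ha⟩ := exists_lt_of_ciInf_lt h5
    refine ⟨a 0, a 1, ?_⟩
    have e3 : pt4 x y z t + (1 - θ) • tens ξ a
        = pt4 (x + (1 - θ) * (ξ 0 * a 0)) (y + (1 - θ) * (ξ 1 * a 0))
          (z + (1 - θ) * (ξ 0 * a 1)) (t + (1 - θ) * (ξ 1 * a 1)) := by
      ext ⟨i, l⟩
      fin_cases i <;> fin_cases l <;> simp [pt4, tens]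
    have e4 : pt4 x y z t - θ • tens ξ a
        = pt4 (x - θ * (ξ 0 * a 0)) (y - θ * (ξ 1 * a 0))
          (z - θ * (ξ 0 * a 1)) (t - θ * (ξ 1 * a 1)) := by
      ext ⟨i, l⟩
      fin_cases i <;> fin_cases l <;> simp [pt4, tens]
    rw [e3, e4] at ha
    exact ha
  apply le_of_forall_pos_le_add
  intro η hη
  have hη' : 0 < η / (2 * Lam + 1) := by have := Lam_pos; positivity
  obtain ⟨a1, b1, ht1⟩ := happ (-(4 / 3) + ee + x1) (-(2 / 3) + y1) z1 t1 _ hη'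
  obtain ⟨a2, b2, ht2⟩ := happ (-(2 / 3) + x2) (-(4 / 3) + ee + y2) z2 t2 _ hη'
  obtain ⟨a3, b3, ht3⟩ := happ (-ee + x3) (-ee + y3) z3 t3 _ hη'
  have hstep := low_step θ r1 s1 w1 e1 r2 s2 w2 e2 (ξ 0) (ξ 1) x1 y1 x2 y2 x3 y3 a1 a2 a3
    h0.le h1.le hN
  have hd : 0 ≤ 1 - dd := by unfold dd; norm_num
  have hstep' := mul_le_mul_of_nonneg_left hstep hd
  have g1 := mul_le_mul_of_nonneg_left (H1 (z1 + (1 - θ) * (ξ 0 * b1)) (t1 + (1 - θ) * (ξ 1 * b1))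
    (z2 + (1 - θ) * (ξ 0 * b2)) (t2 + (1 - θ) * (ξ 1 * b2))
    (z3 + (1 - θ) * (ξ 0 * b3)) (t3 + (1 - θ) * (ξ 1 * b3))
    (x1 + (1 - θ) * (ξ 0 * a1)) (y1 + (1 - θ) * (ξ 1 * a1))
    (x2 + (1 - θ) * (ξ 0 * a2)) (y2 + (1 - θ) * (ξ 1 * a2))
    (x3 + (1 - θ) * (ξ 0 * a3)) (y3 + (1 - θ) * (ξ 1 * a3))) h0.le
  have g2 := mul_le_mul_of_nonneg_left (H2 (z1 - θ * (ξ 0 * b1)) (t1 - θ * (ξ 1 * b1))
    (z2 - θ * (ξ 0 * b2)) (t2 - θ * (ξ 1 * b2))
    (z3 - θ * (ξ 0 * b3)) (t3 - θ * (ξ 1 * b3))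
    (x1 - θ * (ξ 0 * a1)) (y1 - θ * (ξ 1 * a1))
    (x2 - θ * (ξ 0 * a2)) (y2 - θ * (ξ 1 * a2))
    (x3 - θ * (ξ 0 * a3)) (y3 - θ * (ξ 1 * a3))) (sub_nonneg.2 h1.le)
  have hL := Lam_pos.le
  have k1 := mul_le_mul_of_nonneg_left ht1.le hL
  have k2 := mul_le_mul_of_nonneg_left ht2.le hL
  have hsum : Lam * (η / (2 * Lam + 1)) + Lam * (η / (2 * Lam + 1)) + η / (2 * Lam + 1) = η := by
    have := Lam_pos
    field_simp
    ring
  have hst : θ * stiffTerm (z1 + (1 - θ) * (ξ 0 * b1)) (z2 + (1 - θ) * (ξ 0 * b2))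
        (z3 + (1 - θ) * (ξ 0 * b3))
      + (1 - θ) * stiffTerm (z1 - θ * (ξ 0 * b1)) (z2 - θ * (ξ 0 * b2)) (z3 - θ * (ξ 0 * b3))
      = stiffTerm z1 z2 z3 := by
    unfold stiffTerm; ring
  have ex : θ * linTE A (z1 + (1 - θ) * (ξ 0 * b1)) (t1 + (1 - θ) * (ξ 1 * b1))
      (z2 + (1 - θ) * (ξ 0 * b2)) (t2 + (1 - θ) * (ξ 1 * b2))
      (z3 + (1 - θ) * (ξ 0 * b3)) (t3 + (1 - θ) * (ξ 1 * b3))
      (x1 + (1 - θ) * (ξ 0 * a1)) (y1 + (1 - θ) * (ξ 1 * a1))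
      (x2 + (1 - θ) * (ξ 0 * a2)) (y2 + (1 - θ) * (ξ 1 * a2))
      (x3 + (1 - θ) * (ξ 0 * a3)) (y3 + (1 - θ) * (ξ 1 * a3))
    + (1 - θ) * linTE B (z1 - θ * (ξ 0 * b1)) (t1 - θ * (ξ 1 * b1))
      (z2 - θ * (ξ 0 * b2)) (t2 - θ * (ξ 1 * b2))
      (z3 - θ * (ξ 0 * b3)) (t3 - θ * (ξ 1 * b3))
      (x1 - θ * (ξ 0 * a1)) (y1 - θ * (ξ 1 * a1))
      (x2 - θ * (ξ 0 * a2)) (y2 - θ * (ξ 1 * a2))
      (x3 - θ * (ξ 0 * a3)) (y3 - θ * (ξ 1 * a3))
    = Lam * (θ * linW A (pt4 (-(4 / 3) + ee + x1 + (1 - θ) * (ξ 0 * a1))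
          (-(2 / 3) + y1 + (1 - θ) * (ξ 1 * a1)) (z1 + (1 - θ) * (ξ 0 * b1))
          (t1 + (1 - θ) * (ξ 1 * b1)))
        + (1 - θ) * linW B (pt4 (-(4 / 3) + ee + x1 - θ * (ξ 0 * a1))
          (-(2 / 3) + y1 - θ * (ξ 1 * a1)) (z1 - θ * (ξ 0 * b1)) (t1 - θ * (ξ 1 * b1))))
      + Lam * (θ * linW A (pt4 (-(2 / 3) + x2 + (1 - θ) * (ξ 0 * a2))
          (-(4 / 3) + ee + y2 + (1 - θ) * (ξ 1 * a2)) (z2 + (1 - θ) * (ξ 0 * b2))
          (t2 + (1 - θ) * (ξ 1 * b2)))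
        + (1 - θ) * linW B (pt4 (-(2 / 3) + x2 - θ * (ξ 0 * a2))
          (-(4 / 3) + ee + y2 - θ * (ξ 1 * a2)) (z2 - θ * (ξ 0 * b2)) (t2 - θ * (ξ 1 * b2))))
      + (θ * linW A (pt4 (-ee + x3 + (1 - θ) * (ξ 0 * a3)) (-ee + y3 + (1 - θ) * (ξ 1 * a3))
          (z3 + (1 - θ) * (ξ 0 * b3)) (t3 + (1 - θ) * (ξ 1 * b3)))
        + (1 - θ) * linW B (pt4 (-ee + x3 - θ * (ξ 0 * a3)) (-ee + y3 - θ * (ξ 1 * a3))
          (z3 - θ * (ξ 0 * b3)) (t3 - θ * (ξ 1 * b3)))) := by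
    simp only [linTE, TE, ← add_assoc, ← add_sub_assoc]
    ring
  have hMdef : linTE M z1 t1 z2 t2 z3 t3 x1 y1 x2 y2 x3 y3
    = Lam * linW M (pt4 (-(4 / 3) + ee + x1) (-(2 / 3) + y1) z1 t1)
    + Lam * linW M (pt4 (-(2 / 3) + x2) (-(4 / 3) + ee + y2) z2 t2)
    + linW M (pt4 (-ee + x3) (-ee + y3) z3 t3) := rfl
  rw [hMdef]
  linarith

lemma linInv_laminate {k : ℕ} {M : Matrix (Ent 2) (Ent 2) ℝ}
    (h : LinLaminate (LF k) M) : LinInv M := by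
  induction h with
  | phase j => exact linInv_phase k j
  | layer A B M θ ξ _ _ h0 h1 hξ hM ihA ihB => exact linInv_layer ihA ihB h0 h1 hξ hM

lemma lin_lower {k : ℕ} {M : Matrix (Ent 2) (Ent 2) ℝ}
    (h : LinLaminate (LF k) M) :
    (1 - dd) * (BB + ee ^ 2 * (27900 / 40000)) + stiffTerm 1 1 1
      ≤ linTE M 1 0 1 0 1 0 0 0 0 0 0 0 := by
  obtain ⟨r, s, w, e, _, _, _, he, H⟩ := linInv_laminate h
  have h1 := H 1 0 1 0 1 0 0 0 0 0 0 0
  have h2 := low_root r s w e he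
  have hd : 0 ≤ 1 - dd := by unfold dd; norm_num
  have h3 := mul_le_mul_of_nonneg_left h2 hd
  linarith

lemma continuous_linW {n : ℕ} (F : Ent n → ℝ) :
    Continuous (fun M : Matrix (Ent n) (Ent n) ℝ => linW M F) := by
  unfold linW
  exact continuous_const.dotProduct (continuous_id.matrix_mulVec continuous_const)

lemma lin_lower_closure {k : ℕ} {M : Matrix (Ent 2) (Ent 2) ℝ}
    (h : M ∈ linGL (LF k)) :
    (1 - dd) * (BB + ee ^ 2 * (27900 / 40000)) + stiffTerm 1 1 1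
      ≤ linTE M 1 0 1 0 1 0 0 0 0 0 0 0 := by
  have hc : IsClosed {M : Matrix (Ent 2) (Ent 2) ℝ |
      (1 - dd) * (BB + ee ^ 2 * (27900 / 40000)) + stiffTerm 1 1 1
      ≤ linTE M 1 0 1 0 1 0 0 0 0 0 0 0} := by
    apply isClosed_le continuous_const
    unfold linTE TE
    exact (((continuous_linW _).const_mul _).add ((continuous_linW _).const_mul _)).add
      (continuous_linW _)
  exact closure_minimal (fun M hM => lin_lower hM) hc h

/-- the effective tensor of a composite exists -/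
lemma exists_linEffective {n k : ℕ} (L : Fin k → Matrix (Ent n) (Ent n) ℝ)
    (hL : ∀ j, (L j).PosDef) {χ : ℝ × ℝ → Fin k} (hχ : IsPartition χ) :
    ∃ M, LinEffective L χ M := by
  obtain ⟨M, hM, h⟩ := exists_effective (LinearMap.id : (Ent n → ℝ) →ₗ[ℝ] (Ent n → ℝ))
    continuous_id L hL hχ.1
  exact ⟨M, hM, fun F => h F⟩

lemma linW_nonneg {n : ℕ} {K : Matrix (Ent n) (Ent n) ℝ} (hK : K.PosDef)
    (F : Ent n → ℝ) : 0 ≤ linW K F := by
  have := hK.posSemidef.dotProduct_mulVec_nonneg F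
  simpa [linW] using this

lemma linStar_le {n k : ℕ} (K : Fin k → Matrix (Ent n) (Ent n) ℝ)
    (hK : ∀ j, (K j).PosDef) (χ : ℝ × ℝ → Fin k) (F : Ent n → ℝ) {u : ℝ × ℝ → Fin n → ℝ}
    (hu : IsPotential u) : linStar K χ F ≤ avg fun p => linW (K (χ p)) (F + grad u p) := by
  unfold linStar
  refine ciInf_le (f := fun u : {u : ℝ × ℝ → Fin n → ℝ // IsPotential u} =>
    avg fun p => linW (K (χ p)) (F + grad u.1 p)) ?_ ⟨u, hu⟩
  refine ⟨0, ?_⟩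
  rintro _ ⟨v, rfl⟩
  exact avg_nonneg fun p => linW_nonneg (hK _) _

lemma integrable_linW {n k : ℕ} (K : Fin k → Matrix (Ent n) (Ent n) ℝ)
    {χ : ℝ × ℝ → Fin k} (hχ : IsPartition χ) (F : Ent n → ℝ) {u : ℝ × ℝ → Fin n → ℝ}
    (hu : IsPotential u) : IntegrableOn (fun p => linW (K (χ p)) (F + grad u p)) cell := by
  unfold linW
  have hc : Continuous (fun p => F + grad u p) := continuous_const.add (continuous_grad hu)
  exact integrable_quad K hχ.1 hc hc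

lemma pt4_add (x y z t : ℝ) (a b : ℝ) :
    pt4 x y z t + tens ![a, b] ![1, 0] = pt4 (x + a) (y + b) z t := by
  ext ⟨i, j⟩
  fin_cases i <;> fin_cases j <;> simp [pt4, tens]

lemma linW_chi (k : ℕ) (hk : 4 ≤ k) (p : ℝ × ℝ) (x y : ℝ) :
    linW (LF k (chi k hk p)) (pt4 x y 1 0) = WW (sg p.1) (sg p.2) x y 1 + Nst := by
  obtain ⟨h1, h2, h3⟩ := chi_spec k hk p
  rw [linW, LF_quad, h1, h2, h3]
  have h4 : pt4 x y 1 0 (0, 0) = x := rfl
  have h5 : pt4 x y 1 0 (1, 0) = y := rfl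
  have h6 : pt4 x y 1 0 (0, 1) = 1 := rfl
  have h7 : pt4 x y 1 0 (1, 1) = 0 := rfl
  rw [h4, h5, h6, h7]
  simp

theorem lin_upper (k : ℕ) (hk : 4 ≤ k) :
    Lam * linStar (LF k) (chi k hk) (pt4 (-(4 / 3) + ee + 0) (-(2 / 3) + 0) 1 0)
    + Lam * linStar (LF k) (chi k hk) (pt4 (-(2 / 3) + 0) (-(4 / 3) + ee + 0) 1 0)
    + linStar (LF k) (chi k hk) (pt4 (-ee + 0) (-ee + 0) 1 0)
    ≤ BB + 600012 * ee ^ 3 + ee ^ 2 * (673 / 1000) + (2 * Lam + 1) * Nst := by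
  obtain ⟨c, h0, h1, hint, hUB⟩ := UB_avg
  have hχ := chi_partition k hk
  have hPD := LF_posDef k
  let e : Fin 2 → ℝ := ![1, 0]
  have b1 := linStar_le (LF k) hPD (chi k hk) (pt4 (-(4 / 3) + ee + 0) (-(2 / 3) + 0) 1 0)
    (u1_pot e h0 h1)
  have b2 := linStar_le (LF k) hPD (chi k hk) (pt4 (-(2 / 3) + 0) (-(4 / 3) + ee + 0) 1 0)
    (u2_pot e h0 h1)
  have b3 := linStar_le (LF k) hPD (chi k hk) (pt4 (-ee + 0) (-ee + 0) 1 0) (u3_pot e)
  have i1 := integrable_linW (LF k) hχ (pt4 (-(4 / 3) + ee + 0) (-(2 / 3) + 0) 1 0)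
    (u1_pot e h0 h1)
  have i2 := integrable_linW (LF k) hχ (pt4 (-(2 / 3) + 0) (-(4 / 3) + ee + 0) 1 0)
    (u2_pot e h0 h1)
  have i3 := integrable_linW (LF k) hχ (pt4 (-ee + 0) (-ee + 0) 1 0) (u3_pot e)
  have hL := Lam_pos.le
  have c1 := mul_le_mul_of_nonneg_left b1 hL
  have c2 := mul_le_mul_of_nonneg_left b2 hL
  rw [← avg_mul] at c1 c2
  have hsum := add_le_add (add_le_add c1 c2) b3
  refine hsum.trans ?_
  have i12 : IntegrableOn (fun p =>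
      Lam * linW (LF k (chi k hk p)) (pt4 (-(4 / 3) + ee + 0) (-(2 / 3) + 0) 1 0 + grad (u1 c e) p)
      + Lam * linW (LF k (chi k hk p))
        (pt4 (-(2 / 3) + 0) (-(4 / 3) + ee + 0) 1 0 + grad (u2 c e) p))
      cell := (i1.const_mul Lam).add (i2.const_mul Lam)
  rw [← avg_add (i1.const_mul Lam) (i2.const_mul Lam), ← avg_add i12 i3]
  calc _ ≤ avg (fun p => (BB + 600012 * ee ^ 3 + (2 * Lam + 1) * Nst) + UB c p) := by
        apply avg_mono (i12.add i3)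
        · exact ((continuous_const.continuousOn).integrableOn_compact isCompact_cell).add hint
        · intro p
          have h := pattern_UB c h0 h1 p
          simp only [TE] at h
          simp only [u1_grad e h0 h1, u2_grad e h0 h1, u3_grad, e, pt4_add, linW_chi]
          simp only [add_zero, Pi.add_apply] at h ⊢
          linarith
    _ = (BB + 600012 * ee ^ 3 + (2 * Lam + 1) * Nst) + avg (UB c) := by
        rw [avg_add ((continuous_const.continuousOn).integrableOn_compact isCompact_cell) hint,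
          avg_const]
    _ ≤ _ := by linarith

/-- main theorem of the linear case -/
theorem lin_main (k : ℕ) (hk : 4 ≤ k) :
    ∃ L : Fin k → Matrix (Ent 2) (Ent 2) ℝ,
      Function.Injective L ∧ (∀ j, (L j).PosDef) ∧ ∃ M ∈ linG L, M ∉ linGL L := by
  refine ⟨LF k, LF_injective k, LF_posDef k, ?_⟩
  obtain ⟨M, hM⟩ := exists_linEffective (LF k) (LF_posDef k) (chi_partition k hk)
  refine ⟨M, subset_closure ⟨_, chi_partition k hk, hM⟩, fun hcon => ?_⟩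
  have h1 := lin_lower_closure hcon
  have h2 := lin_upper k hk
  rw [hM.2, hM.2, hM.2] at h2
  have h3 : linTE M 1 0 1 0 1 0 0 0 0 0 0 0
    = Lam * linW M (pt4 (-(4 / 3) + ee + 0) (-(2 / 3) + 0) 1 0)
    + Lam * linW M (pt4 (-(2 / 3) + 0) (-(4 / 3) + ee + 0) 1 0)
    + linW M (pt4 (-ee + 0) (-ee + 0) 1 0) := rfl
  have h4 := gap
  have h6 : stiffTerm 1 1 1 = (2 * Lam + 1) * Nst - (2 * Lam + 1) * (2 * dd) := by
    unfold stiffTerm; ring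
  have h7 : dd * (BB + ee ^ 2 * (27900 / 40000)) + (2 * Lam + 1) * (2 * dd) < 1 / 10 ^ 21 := by
    unfold dd BB ee Lam; norm_num
  rw [h3] at h1
  rw [h6] at h1
  linarith

theorem nL_le_two (k : ℕ) (hk : 4 ≤ k) : nL k ≤ 2 := by
  obtain ⟨K, _, hPD, M, hM1, hM2⟩ := lin_main k hk
  apply sInf_le
  refine ⟨2, by simp, by norm_num, K, hPD, fun h => hM2 (h ▸ hM1)⟩

end Pool.Agent.Lib.MP_2a9317_an
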