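import Pool.Agent.Lib.MP_2a9317_an.Defs

set_option autoImplicit false

namespace Pool.Agent.Lib.MP_2a9317_an

open MeasureTheory Matrix

/-! ### Two phases: volume fractions -/

/-- The volume fraction of phase `0`. -/
noncomputable def frac (χ : ℝ × ℝ → Fin 2) : ℝ := avg fun p => if χ p = 0 then 1 else 0

/-- The pairs (volume fraction of phase `0`, effective tensor) of all composites, closed.
`{M | (θ, M) ∈ linGv L}` is the G-closure at fixed volume fraction `θ`. -/
def linGv {n : ℕ} (L : Fin 2 → Matrix (Ent n) (Ent n) ℝ) : Set (ℝ × Matrix (Ent n) (Ent n) ℝ) :=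
  closure {x | ∃ χ : ℝ × ℝ → Fin 2, IsPartition χ ∧ frac χ = x.1 ∧ LinEffective L χ x.2}

/-- Multiple-rank laminates of two phases with the volume fraction of phase `0`. -/
inductive LinLaminateV {n : ℕ} (L : Fin 2 → Matrix (Ent n) (Ent n) ℝ) :
    ℝ → Matrix (Ent n) (Ent n) ℝ → Prop
  | phase0 : LinLaminateV L 1 (L 0)
  | phase1 : LinLaminateV L 0 (L 1)
  | layer (A B M : Matrix (Ent n) (Ent n) ℝ) (s t θ : ℝ) (ξ : Fin 2 → ℝ) :
      LinLaminateV L s A → LinLaminateV L t B → 0 < θ → θ < 1 → ξ ≠ 0 → LinLayer A B θ ξ M →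
        LinLaminateV L (θ * s + (1 - θ) * t) M

/-- The pairs (volume fraction of phase `0`, effective tensor) of all laminates, closed. -/
def linGLv {n : ℕ} (L : Fin 2 → Matrix (Ent n) (Ent n) ℝ) : Set (ℝ × Matrix (Ent n) (Ent n) ℝ) :=
  closure {x | LinLaminateV L x.1 x.2}

end Pool.Agent.Lib.MP_2a9317_an
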