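import Mathlib

set_option autoImplicit false

namespace Pool.Agent.Lib.MP_2a9317_an

open MeasureTheory Filter Topology Real
open scoped ContDiff

/-! ### One-dimensional profiles: the square wave and smooth approximations of it -/

/-- the square wave `sign (sin 2πx)` -/
noncomputable def sg (x : ℝ) : ℝ := if 0 ≤ sin (2 * π * x) then 1 else -1

/-- smooth periodic primitive of an approximate square wave -/
noncomputable def PP (c x : ℝ) : ℝ := -(1 / (2 * π)) * arcsin (c * cos (2 * π * x))

/-- smooth approximate square wave -/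
noncomputable def DD (c x : ℝ) : ℝ :=
  c * sin (2 * π * x) / √(1 - (c * cos (2 * π * x)) ^ 2)

lemma sg_eq (x : ℝ) : sg x = 1 ∨ sg x = -1 := by
  unfold sg; split_ifs
  · exact Or.inl rfl
  · exact Or.inr rfl

lemma abs_sg (x : ℝ) : |sg x| = 1 := by
  rcases sg_eq x with h | h <;> rw [h] <;> norm_num

lemma measurable_sg : Measurable sg := by
  apply Measurable.ite
  · exact measurableSet_le measurable_const (by fun_prop)
  · exact measurable_const
  · exact measurable_const

lemma sin_per (x : ℝ) : sin (2 * π * (x + 1)) = sin (2 * π * x) := by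
  rw [mul_add, mul_one, sin_add_two_pi]

lemma cos_per (x : ℝ) : cos (2 * π * (x + 1)) = cos (2 * π * x) := by
  rw [mul_add, mul_one, cos_add_two_pi]

lemma sg_per (x : ℝ) : sg (x + 1) = sg x := by
  unfold sg; rw [sin_per]

lemma PP_per (c x : ℝ) : PP c (x + 1) = PP c x := by
  unfold PP; rw [cos_per]

section
variable {c : ℝ} (h0 : 0 < c) (h1 : c < 1)
include h0 h1

lemma abs_ccos_lt (x : ℝ) : |c * cos (2 * π * x)| < 1 := by
  rw [abs_mul, abs_of_pos h0]
  calc c * |cos (2 * π * x)| ≤ c * 1 := by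
        apply mul_le_mul_of_nonneg_left (abs_cos_le_one _) h0.le
    _ < 1 := by linarith

lemma rad_pos (x : ℝ) : 0 < 1 - (c * cos (2 * π * x)) ^ 2 := by
  have h := abs_ccos_lt h0 h1 x
  have : (c * cos (2 * π * x)) ^ 2 < 1 := by
    rw [← sq_abs]
    have := abs_nonneg (c * cos (2 * π * x))
    nlinarith
  linarith

lemma PP_contDiff : ContDiff ℝ ∞ (PP c) := by
  unfold PP
  apply ContDiff.mul contDiff_const
  rw [contDiff_iff_contDiffAt]
  intro x
  have h := abs_ccos_lt h0 h1 x
  rw [abs_lt] at h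
  have h2 : ContDiffAt ℝ ∞ arcsin (c * cos (2 * π * x)) :=
    contDiffAt_arcsin (by linarith [h.1]) (by linarith [h.2])
  have h3 : ContDiffAt ℝ ∞ (fun y : ℝ => c * cos (2 * π * y)) x := by fun_prop
  exact ContDiffAt.comp (g := arcsin) x h2 h3

lemma PP_hasDerivAt (x : ℝ) : HasDerivAt (PP c) (DD c x) x := by
  have h := abs_ccos_lt h0 h1 x
  rw [abs_lt] at h
  have h2 : HasDerivAt arcsin (1 / √(1 - (c * cos (2 * π * x)) ^ 2)) (c * cos (2 * π * x)) :=
    hasDerivAt_arcsin (by linarith [h.1]) (by linarith [h.2])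
  have h3 : HasDerivAt (fun y => c * cos (2 * π * y)) (c * (-sin (2 * π * x) * (2 * π))) x := by
    have h4 : HasDerivAt (fun y : ℝ => 2 * π * y) (2 * π) x := by
      simpa using (hasDerivAt_id x).const_mul (2 * π)
    exact ((hasDerivAt_cos _).comp x h4).const_mul c
  have h5 : HasDerivAt (fun y => -(1 / (2 * π)) * arcsin (c * cos (2 * π * y)))
      (-(1 / (2 * π)) * (1 / √(1 - (c * cos (2 * π * x)) ^ 2)
        * (c * (-sin (2 * π * x) * (2 * π))))) x :=
    (HasDerivAt.comp (h₂ := arcsin) x h2 h3).const_mul (-(1 / (2 * π)))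
  have hpi := pi_ne_zero
  have hr := (sqrt_pos.2 (rad_pos h0 h1 x)).ne'
  have h6 : DD c x = (-(1 / (2 * π)) * (1 / √(1 - (c * cos (2 * π * x)) ^ 2)
        * (c * (-sin (2 * π * x) * (2 * π))))) := by
    unfold DD
    field_simp
  rw [h6]
  exact h5

lemma DD_abs_le (x : ℝ) : |DD c x| ≤ 1 := by
  unfold DD
  have hr := sqrt_pos.2 (rad_pos h0 h1 x)
  rw [abs_div, abs_of_pos hr, div_le_one hr]
  apply abs_le_sqrt
  have := sin_sq_add_cos_sq (2 * π * x)
  have hc2 : c ^ 2 ≤ 1 := by nlinarith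
  rw [mul_pow, mul_pow]
  nlinarith

lemma DD_continuous : Continuous (DD c) := by
  unfold DD
  apply Continuous.div (by fun_prop) (by fun_prop)
  intro x
  exact (sqrt_pos.2 (rad_pos h0 h1 x)).ne'

lemma int_DD : ∫ x in Set.Icc (0 : ℝ) 1, DD c x = 0 := by
  rw [integral_Icc_eq_integral_Ioc, ← intervalIntegral.integral_of_le zero_le_one]
  rw [intervalIntegral.integral_eq_sub_of_hasDerivAt (f := PP c)
    (fun x _ => PP_hasDerivAt h0 h1 x) ((DD_continuous h0 h1).intervalIntegrable _ _)]
  have := PP_per c 0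
  rw [zero_add] at this
  rw [this, sub_self]

end

lemma ae_sin_ne : ∀ᵐ x : ℝ ∂(volume.restrict (Set.Icc (0 : ℝ) 1)), sin (2 * π * x) ≠ 0 := by
  apply ae_restrict_of_ae
  have hc : ({x : ℝ | sin (2 * π * x) = 0}).Countable := by
    apply Set.Countable.mono _ (Set.countable_range (fun n : ℤ => (n : ℝ) / 2))
    intro x hx
    change sin (2 * π * x) = 0 at hx
    rw [sin_eq_zero_iff] at hx
    obtain ⟨n, hn⟩ := hx
    refine ⟨n, ?_⟩
    have hpi := pi_ne_zero
    have h2 : (n : ℝ) * π = (2 * x) * π := by rw [hn]; ring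
    have h3 := mul_right_cancel₀ hpi h2
    show (n : ℝ) / 2 = x
    linarith
  exact (hc.ae_notMem volume)

lemma exists_DD_close (η : ℝ) (hη : 0 < η) :
    ∃ c : ℝ, 0 < c ∧ c < 1 ∧ ∫ x in Set.Icc (0 : ℝ) 1, (DD c x - sg x) ^ 2 < η := by
  let cs : ℕ → ℝ := fun n => 1 - 1 / ((n : ℝ) + 2)
  have hcs0 : ∀ n, 0 < cs n := by
    intro n
    have : (0 : ℝ) < (n : ℝ) + 2 := by positivity
    have h2 : 1 / ((n : ℝ) + 2) < 1 := by rw [div_lt_one this]; linarith [Nat.cast_nonneg (α := ℝ) n]
    show 0 < 1 - 1 / ((n : ℝ) + 2)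
    linarith
  have hcs1 : ∀ n, cs n < 1 := by
    intro n
    have : (0 : ℝ) < 1 / ((n : ℝ) + 2) := by positivity
    show 1 - 1 / ((n : ℝ) + 2) < 1
    linarith
  have hcs : Tendsto cs atTop (𝓝 1) := by
    have h1 : Tendsto (fun n : ℕ => 1 / ((n : ℝ) + 2)) atTop (𝓝 0) := by
      have := tendsto_one_div_add_atTop_nhds_zero_nat (𝕜 := ℝ)
      have h2 := this.comp (tendsto_add_atTop_nat 1)
      refine h2.congr fun n => ?_
      simp only [Function.comp_apply, Nat.cast_add, Nat.cast_one]
      congr 1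
      ring
    have h3 := h1.const_sub 1
    rwa [sub_zero] at h3
  have hlim : Tendsto (fun n => ∫ x in Set.Icc (0 : ℝ) 1, (DD (cs n) x - sg x) ^ 2) atTop
      (𝓝 (∫ x in Set.Icc (0 : ℝ) 1, (0 : ℝ))) := by
    apply tendsto_integral_of_dominated_convergence (fun _ => (4 : ℝ))
    · intro n
      exact (((DD_continuous (hcs0 n) (hcs1 n)).measurable.sub measurable_sg).pow_const 2).aestronglyMeasurable
    · exact integrable_const _
    · intro n
      refine Eventually.of_forall fun x => ?_
      have h1 := DD_abs_le (hcs0 n) (hcs1 n) x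
      have h2 := abs_sg x
      rw [norm_pow, Real.norm_eq_abs]
      have h3 : |DD (cs n) x - sg x| ≤ 2 := by
        calc |DD (cs n) x - sg x| ≤ |DD (cs n) x| + |sg x| := abs_sub _ _
          _ ≤ 2 := by linarith
      have h4 := abs_nonneg (DD (cs n) x - sg x)
      nlinarith
    · filter_upwards [ae_sin_ne] with x hx
      have hcont : ContinuousAt (fun c : ℝ => (DD c x - sg x) ^ 2) 1 := by
        unfold DD
        have hne : √(1 - (1 * cos (2 * π * x)) ^ 2) ≠ 0 := by
          rw [one_mul, ← sin_sq, sqrt_sq_eq_abs]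
          exact abs_ne_zero.2 hx
        have hc1 : ContinuousAt (fun c : ℝ => c * sin (2 * π * x)) 1 := by fun_prop
        have hc2 : ContinuousAt (fun c : ℝ => √(1 - (c * cos (2 * π * x)) ^ 2)) 1 := by fun_prop
        exact ((hc1.div hc2 hne).sub continuousAt_const).pow 2
      have h1 := hcont.tendsto.comp hcs
      have hz : (DD 1 x - sg x) ^ 2 = 0 := by
        have : DD 1 x = sg x := by
          unfold DD sg
          rw [one_mul, one_mul, ← sin_sq, sqrt_sq_eq_abs]
          split_ifs with hs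
          · rw [abs_of_nonneg hs, div_self hx]
          · push Not at hs
            rw [abs_of_neg hs, div_neg, div_self hx]
        rw [this, sub_self]; norm_num
      rw [hz] at h1
      exact h1
  rw [integral_zero] at hlim
  obtain ⟨n, hn⟩ := ((tendsto_order.1 hlim).2 η hη).exists
  exact ⟨cs n, hcs0 n, hcs1 n, hn⟩

/-! integrals -/

lemma hasDerivAt_sinA (x : ℝ) :
    HasDerivAt (fun y => sin (2 * π * y) / (2 * π)) (cos (2 * π * x)) x := by
  have h4 : HasDerivAt (fun y : ℝ => 2 * π * y) (2 * π) x := by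
    simpa using (hasDerivAt_id x).const_mul (2 * π)
  have h5 : HasDerivAt (fun y => sin (2 * π * y) / (2 * π)) (cos (2 * π * x) * (2 * π) / (2 * π)) x :=
    ((hasDerivAt_sin _).comp x h4).div_const (2 * π)
  have hpi := pi_ne_zero
  rwa [mul_div_assoc, div_self (by positivity), mul_one] at h5

lemma hasDerivAt_cosA (x : ℝ) :
    HasDerivAt (fun y => -(cos (2 * π * y) / (2 * π))) (sin (2 * π * x)) x := by
  have h4 : HasDerivAt (fun y : ℝ => 2 * π * y) (2 * π) x := by
    simpa using (hasDerivAt_id x).const_mul (2 * π)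
  have h5 : HasDerivAt (fun y => -(cos (2 * π * y) / (2 * π)))
      (-(-sin (2 * π * x) * (2 * π) / (2 * π))) x :=
    (((hasDerivAt_cos _).comp x h4).div_const (2 * π)).neg
  have hpi := pi_ne_zero
  rwa [mul_div_assoc, div_self (by positivity), mul_one, neg_neg] at h5

lemma int_cosA (a b : ℝ) : ∫ x in a..b, cos (2 * π * x)
    = sin (2 * π * b) / (2 * π) - sin (2 * π * a) / (2 * π) :=
  intervalIntegral.integral_eq_sub_of_hasDerivAt (fun x _ => hasDerivAt_sinA x)
    (Continuous.intervalIntegrable (by fun_prop) _ _)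

lemma int_sinA (a b : ℝ) : ∫ x in a..b, sin (2 * π * x)
    = -(cos (2 * π * b) / (2 * π)) - -(cos (2 * π * a) / (2 * π)) :=
  intervalIntegral.integral_eq_sub_of_hasDerivAt (fun x _ => hasDerivAt_cosA x)
    (Continuous.intervalIntegrable (by fun_prop) _ _)

lemma int_sg_mul (f : ℝ → ℝ) (hf : Continuous f) :
    ∫ x in Set.Icc (0 : ℝ) 1, sg x * f x = (∫ x in (0 : ℝ)..(1 / 2), f x) - ∫ x in (1 / 2 : ℝ)..1, f x := by
  rw [integral_Icc_eq_integral_Ioc, ← intervalIntegral.integral_of_le zero_le_one]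
  have hint : ∀ a b : ℝ, IntervalIntegrable (fun x => sg x * f x) volume a b := by
    intro a b
    rw [intervalIntegrable_iff]
    apply Integrable.bdd_mul (c := 1)
    · exact (hf.intervalIntegrable a b).def'
    · exact measurable_sg.aestronglyMeasurable
    · exact Eventually.of_forall fun x => by rw [Real.norm_eq_abs, abs_sg]
  rw [← intervalIntegral.integral_add_adjacent_intervals (hint 0 (1 / 2)) (hint (1 / 2) 1)]
  have hpi := pi_pos
  have h1 : ∫ x in (0 : ℝ)..(1 / 2), sg x * f x = ∫ x in (0 : ℝ)..(1 / 2), f x := by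
    apply intervalIntegral.integral_congr
    intro x hx
    rw [Set.uIcc_of_le (by norm_num)] at hx
    have : 0 ≤ sin (2 * π * x) := by
      apply sin_nonneg_of_nonneg_of_le_pi
      · have := hx.1; positivity
      · nlinarith [hx.2]
    simp only [sg, if_pos this, one_mul]
  have h2 : ∫ x in (1 / 2 : ℝ)..1, sg x * f x = ∫ x in (1 / 2 : ℝ)..1, -f x := by
    apply intervalIntegral.integral_congr_ae
    have hne : ∀ᵐ x : ℝ, x ≠ 1 := by
      have : ({1} : Set ℝ).Countable := Set.countable_singleton 1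
      filter_upwards [this.ae_notMem volume] with x hx
      simpa using hx
    filter_upwards [hne] with x hx1 hx
    rw [Set.uIoc_of_le (by norm_num)] at hx
    have hlt : x < 1 := lt_of_le_of_ne hx.2 hx1
    have : ¬ 0 ≤ sin (2 * π * x) := by
      push Not
      have h3 : sin (2 * π * x) = -sin (2 * π * x - π) := by rw [sin_sub_pi, neg_neg]
      rw [h3]
      have : 0 < sin (2 * π * x - π) := by
        apply sin_pos_of_pos_of_lt_pi
        · nlinarith [hx.1]
        · nlinarith
      linarith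
    simp only [sg, if_neg this]
    ring
  rw [h1, h2, intervalIntegral.integral_neg]
  ring

lemma sin_half : sin (2 * π * (1 / 2)) = 0 := by
  rw [show 2 * π * (1 / 2) = π by ring, sin_pi]

lemma cos_half : cos (2 * π * (1 / 2)) = -1 := by
  rw [show 2 * π * (1 / 2) = π by ring, cos_pi]

lemma int_sg_cos : ∫ x in Set.Icc (0 : ℝ) 1, sg x * cos (2 * π * x) = 0 := by
  rw [int_sg_mul _ (by fun_prop), int_cosA, int_cosA, sin_half]
  simp

lemma int_sg_sin : ∫ x in Set.Icc (0 : ℝ) 1, sg x * sin (2 * π * x) = 2 / π := by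
  rw [int_sg_mul _ (by fun_prop), int_sinA, int_sinA, cos_half]
  have hpi := pi_ne_zero
  simp only [mul_zero, mul_one, cos_zero, cos_two_pi]
  field_simp
  norm_num

lemma int_two (f : ℝ → ℝ) (F : ℝ → ℝ) (hf : Continuous f) (h : ∀ x, HasDerivAt F (f x) x) :
    ∫ x in Set.Icc (0 : ℝ) 1, f x = F 1 - F 0 := by
  rw [integral_Icc_eq_integral_Ioc, ← intervalIntegral.integral_of_le zero_le_one]
  exact intervalIntegral.integral_eq_sub_of_hasDerivAt (fun x _ => h x)
    (hf.intervalIntegrable _ _)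

lemma int_cos_sin : ∫ x in Set.Icc (0 : ℝ) 1, cos (2 * π * x) * sin (2 * π * x) = 0 := by
  have hpi := pi_ne_zero
  rw [int_two _ (fun x => sin (2 * π * x) ^ 2 / (4 * π)) (by fun_prop)]
  · simp
  · intro x
    have h4 : HasDerivAt (fun y : ℝ => 2 * π * y) (2 * π) x := by
      simpa using (hasDerivAt_id x).const_mul (2 * π)
    have h5 : HasDerivAt (fun y => sin (2 * π * y) ^ 2 / (4 * π))
        ((2 : ℕ) * sin (2 * π * x) ^ (2 - 1) * (cos (2 * π * x) * (2 * π)) / (4 * π)) x :=
      (((hasDerivAt_sin _).comp x h4).pow 2).div_const (4 * π)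
    have h6 : cos (2 * π * x) * sin (2 * π * x)
        = ((2 : ℕ) * sin (2 * π * x) ^ (2 - 1) * (cos (2 * π * x) * (2 * π)) / (4 * π)) := by
      field_simp
      norm_num
      ring
    rw [h6]
    exact h5

lemma int_cos_sq : ∫ x in Set.Icc (0 : ℝ) 1, cos (2 * π * x) ^ 2 = 1 / 2 := by
  have hpi := pi_ne_zero
  rw [int_two _ (fun x => x / 2 + sin (2 * π * x) * cos (2 * π * x) / (4 * π)) (by fun_prop)]
  · simp
  · intro x
    have h4 : HasDerivAt (fun y : ℝ => 2 * π * y) (2 * π) x := by
      simpa using (hasDerivAt_id x).const_mul (2 * π)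
    have h5 : HasDerivAt (fun y => y / 2 + sin (2 * π * y) * cos (2 * π * y) / (4 * π))
        (1 / 2 + (cos (2 * π * x) * (2 * π) * cos (2 * π * x)
          + sin (2 * π * x) * (-sin (2 * π * x) * (2 * π))) / (4 * π)) x :=
      ((hasDerivAt_id x).div_const 2).add
      ((((hasDerivAt_sin _).comp x h4).mul ((hasDerivAt_cos _).comp x h4)).div_const (4 * π))
    have h6 : cos (2 * π * x) ^ 2 = (1 / 2 + (cos (2 * π * x) * (2 * π) * cos (2 * π * x)
          + sin (2 * π * x) * (-sin (2 * π * x) * (2 * π))) / (4 * π)) := by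
      have h7 : (cos (2 * π * x) * (2 * π) * cos (2 * π * x)
          + sin (2 * π * x) * (-sin (2 * π * x) * (2 * π))) / (4 * π)
          = (cos (2 * π * x) ^ 2 - sin (2 * π * x) ^ 2) / 2 := by
        field_simp
        ring
      rw [h7, sin_sq]
      ring
    rw [h6]
    exact h5

lemma int_sin_sq : ∫ x in Set.Icc (0 : ℝ) 1, sin (2 * π * x) ^ 2 = 1 / 2 := by
  have h : ∀ x : ℝ, sin (2 * π * x) ^ 2 = 1 - cos (2 * π * x) ^ 2 := fun x => sin_sq _
  simp only [h]
  rw [integral_sub (integrable_const _)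
    (ContinuousOn.integrableOn_compact isCompact_Icc (by fun_prop)), int_cos_sq]
  simp
  norm_num

end Pool.Agent.Lib.MP_2a9317_an
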