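import Pool.Agent.Lib.MP_2a9317_an.Eff
import Pool.Agent.Lib.MP_2a9317_an.Alg
import Pool.Agent.Lib.MP_2a9317_an.Wave

set_option autoImplicit false

namespace Pool.Agent.Lib.MP_2a9317_an

open MeasureTheory Real
open scoped ContDiff

/-! ### Averages over the cell of sums of products -/

/-- bounded measurable functions of one variable -/
def Good (f : ℝ → ℝ) : Prop := Measurable f ∧ ∃ C : ℝ, ∀ x, |f x| ≤ C

/-- `F` is integrable on the cell with average `v` -/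
def HasAvg (F : ℝ × ℝ → ℝ) (v : ℝ) : Prop := IntegrableOn F cell ∧ avg F = v

lemma HasAvg.add {F G : ℝ × ℝ → ℝ} {v w : ℝ} (hF : HasAvg F v) (hG : HasAvg G w) :
    HasAvg (fun p => F p + G p) (v + w) :=
  ⟨hF.1.add hG.1, by rw [avg_add hF.1 hG.1, hF.2, hG.2]⟩

lemma HasAvg.prod {f g : ℝ → ℝ} {a b : ℝ} (c : ℝ) (hf : Good f) (hg : Good g)
    (ha : ∫ x in Set.Icc (0 : ℝ) 1, f x = a) (hb : ∫ x in Set.Icc (0 : ℝ) 1, g x = b) :
    HasAvg (fun p => c * (f p.1 * g p.2)) (c * (a * b)) := by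
  constructor
  · apply Integrable.const_mul
    obtain ⟨hfm, C1, hC1⟩ := hf
    obtain ⟨hgm, C2, hC2⟩ := hg
    have hm : Measurable (fun p : ℝ × ℝ => f p.1 * g p.2) :=
      (hfm.comp measurable_fst).mul (hgm.comp measurable_snd)
    apply Measure.integrableOn_of_bounded (M := C1 * C2)
    · rw [volume_cell]; exact ENNReal.one_ne_top
    · exact hm.aestronglyMeasurable
    · refine Filter.Eventually.of_forall fun p => ?_
      rw [Real.norm_eq_abs, abs_mul]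
      exact mul_le_mul (hC1 _) (hC2 _) (abs_nonneg _) ((abs_nonneg _).trans (hC1 p.1))
  · rw [avg_mul, avg_prod, ha, hb]

lemma good_one : Good (fun _ => 1) := ⟨measurable_const, 1, fun _ => by norm_num⟩

lemma good_DD {c : ℝ} (h0 : 0 < c) (h1 : c < 1) : Good (DD c) :=
  ⟨(DD_continuous h0 h1).measurable, 1, DD_abs_le h0 h1⟩

lemma good_diff {c : ℝ} (h0 : 0 < c) (h1 : c < 1) : Good (fun x => (DD c x - sg x) ^ 2) := by
  refine ⟨((DD_continuous h0 h1).measurable.sub measurable_sg).pow_const 2, 4, fun x => ?_⟩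
  have h1 := DD_abs_le h0 h1 x
  have h2 := abs_sg x
  rw [abs_pow]
  have h3 : |DD c x - sg x| ≤ 2 := by
    calc |DD c x - sg x| ≤ |DD c x| + |sg x| := abs_sub _ _
      _ ≤ 2 := by linarith
  have h4 := abs_nonneg (DD c x - sg x)
  nlinarith

lemma good_sgcos : Good (fun x => sg x * cos (2 * π * x)) := by
  refine ⟨measurable_sg.mul (by fun_prop), 1, fun x => ?_⟩
  rw [abs_mul, abs_sg, one_mul]; exact abs_cos_le_one _

lemma good_sgsin : Good (fun x => sg x * sin (2 * π * x)) := by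
  refine ⟨measurable_sg.mul (by fun_prop), 1, fun x => ?_⟩
  rw [abs_mul, abs_sg, one_mul]; exact abs_sin_le_one _

lemma good_cossq : Good (fun x => cos (2 * π * x) ^ 2) := by
  refine ⟨by fun_prop, 1, fun x => ?_⟩
  rw [abs_pow]; exact pow_le_one₀ (abs_nonneg _) (abs_cos_le_one _)

lemma good_sinsq : Good (fun x => sin (2 * π * x) ^ 2) := by
  refine ⟨by fun_prop, 1, fun x => ?_⟩
  rw [abs_pow]; exact pow_le_one₀ (abs_nonneg _) (abs_sin_le_one _)

lemma good_cossin : Good (fun x => cos (2 * π * x) * sin (2 * π * x)) := by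
  refine ⟨by fun_prop, 1, fun x => ?_⟩
  rw [abs_mul]; exact mul_le_one₀ (abs_cos_le_one _) (abs_nonneg _) (abs_sin_le_one _)

lemma int_one : ∫ _ in Set.Icc (0 : ℝ) 1, (1 : ℝ) = 1 := by simp

/-- the third profile -/
noncomputable def TT (p : ℝ × ℝ) : ℝ := -(81 / 100) * cos (2 * π * (p.1 + p.2))

/-- the scaled energy density of the pattern, up to a constant and a small error -/
noncomputable def UB (c : ℝ) (p : ℝ × ℝ) : ℝ :=
  - 2 * Lam * (ee * DD c p.1 + ee * DD c p.2)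
    + Lam * ee ^ 2 * ((DD c p.1 - sg p.1) ^ 2 + (DD c p.2 - sg p.2) ^ 2)
    + ee ^ 2 * (TT p - sg p.1 * sg p.2) ^ 2

lemma UB_avg : ∃ c : ℝ, 0 < c ∧ c < 1 ∧ IntegrableOn (UB c) cell ∧
    avg (UB c) ≤ ee ^ 2 * (673 / 1000) := by
  obtain ⟨c, h0, h1, hc⟩ := exists_DD_close (1 / 10 ^ 8) (by positivity)
  refine ⟨c, h0, h1, ?_⟩
  set I := ∫ x in Set.Icc (0 : ℝ) 1, (DD c x - sg x) ^ 2 with hI
  have hsum := ((((((((((HasAvg.prod (-2 * Lam * ee) (good_DD h0 h1) good_one (int_DD h0 h1) int_one).add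
    (HasAvg.prod (-2 * Lam * ee) good_one (good_DD h0 h1) int_one (int_DD h0 h1))).add
    (HasAvg.prod (Lam * ee ^ 2) (good_diff h0 h1) good_one hI.symm int_one)).add
    (HasAvg.prod (Lam * ee ^ 2) good_one (good_diff h0 h1) int_one hI.symm)).add
    (HasAvg.prod (ee ^ 2) good_one good_one int_one int_one)).add
    (HasAvg.prod (2 * (81 / 100) * ee ^ 2) good_sgcos good_sgcos int_sg_cos int_sg_cos)).add
    (HasAvg.prod (-2 * (81 / 100) * ee ^ 2) good_sgsin good_sgsin int_sg_sin int_sg_sin)).add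
    (HasAvg.prod ((81 / 100) ^ 2 * ee ^ 2) good_cossq good_cossq int_cos_sq int_cos_sq)).add
    (HasAvg.prod (-2 * (81 / 100) ^ 2 * ee ^ 2) good_cossin good_cossin int_cos_sin int_cos_sin)).add
    (HasAvg.prod ((81 / 100) ^ 2 * ee ^ 2) good_sinsq good_sinsq int_sin_sq int_sin_sq))
  have hfun : UB c = fun p : ℝ × ℝ =>
      -2 * Lam * ee * (DD c p.1 * 1) + -2 * Lam * ee * (1 * DD c p.2) +
      Lam * ee ^ 2 * ((DD c p.1 - sg p.1) ^ 2 * 1) + Lam * ee ^ 2 * (1 * (DD c p.2 - sg p.2) ^ 2) +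
      ee ^ 2 * (1 * 1) +
      2 * (81 / 100) * ee ^ 2 * (sg p.1 * cos (2 * π * p.1) * (sg p.2 * cos (2 * π * p.2))) +
      -2 * (81 / 100) * ee ^ 2 * (sg p.1 * sin (2 * π * p.1) * (sg p.2 * sin (2 * π * p.2))) +
      (81 / 100) ^ 2 * ee ^ 2 * (cos (2 * π * p.1) ^ 2 * cos (2 * π * p.2) ^ 2) +
      -2 * (81 / 100) ^ 2 * ee ^ 2 * (cos (2 * π * p.1) * sin (2 * π * p.1) *
        (cos (2 * π * p.2) * sin (2 * π * p.2))) +
      (81 / 100) ^ 2 * ee ^ 2 * (sin (2 * π * p.1) ^ 2 * sin (2 * π * p.2) ^ 2) := by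
    ext p
    simp only [UB, TT]
    have hcos : cos (2 * π * (p.1 + p.2))
        = cos (2 * π * p.1) * cos (2 * π * p.2) - sin (2 * π * p.1) * sin (2 * π * p.2) := by
      rw [mul_add, cos_add]
    rw [hcos]
    have ha : sg p.1 ^ 2 = 1 := by
      rcases sg_eq p.1 with h | h <;> rw [h] <;> norm_num
    have hb : sg p.2 ^ 2 = 1 := by
      rcases sg_eq p.2 with h | h <;> rw [h] <;> norm_num
    linear_combination (ee ^ 2 * sg p.2 ^ 2) * ha + ee ^ 2 * hb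
  rw [hfun]
  refine ⟨hsum.1, ?_⟩
  rw [hsum.2]
  have hpi := pi_pos
  have hpi1 : π < 3.1416 := pi_lt_d4
  have hpi2 : π ^ 2 < 9.86966 := by nlinarith
  have hq : 4 / 9.86966 ≤ (2 / π) * (2 / π) := by
    rw [div_mul_div_comm, div_le_div_iff₀ (by norm_num) (by positivity)]
    nlinarith
  have hE : (0 : ℝ) ≤ ee ^ 2 := sq_nonneg _
  have hcomb : -2 * Lam * ee * (0 * 1) + -2 * Lam * ee * (1 * 0) + Lam * ee ^ 2 * (I * 1) +
      Lam * ee ^ 2 * (1 * I) + ee ^ 2 * (1 * 1) + 2 * (81 / 100) * ee ^ 2 * (0 * 0) +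
      -2 * (81 / 100) * ee ^ 2 * (2 / π * (2 / π)) + (81 / 100) ^ 2 * ee ^ 2 * (1 / 2 * (1 / 2)) +
      -2 * (81 / 100) ^ 2 * ee ^ 2 * (0 * 0) + (81 / 100) ^ 2 * ee ^ 2 * (1 / 2 * (1 / 2))
      = ee ^ 2 * (50000 * I + 1 - 2 * (81 / 100) * (2 / π * (2 / π)) + (81 / 100) ^ 2 / 2) := by
    unfold Lam; ring
  rw [hcomb]
  apply mul_le_mul_of_nonneg_left _ hE
  nlinarith

end Pool.Agent.Lib.MP_2a9317_an
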