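import Pool.Agent.Lib.MP_2a9317_an.Pattern

set_option autoImplicit false

namespace Pool.Agent.Lib.MP_2a9317_an

open MeasureTheory Real

/-! ### The four phases as quadratic forms in `(x, y, z)` -/

/-- the coefficient of `z²` in phase `(a, b)` -/
noncomputable def kap (a b : ℝ) : ℝ :=
  1 - ee * (1 - 2 * ee) * (Lam * (1 + a) + Lam * (1 + b) + (1 - a * b)) / (2 * Lam + 1)

/-- the quadratic form of phase `(a, b)` -/
noncomputable def WW (a b x y z : ℝ) : ℝ :=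
  NN x y + ee * (1 + a) * (x - y / 2) ^ 2 + ee * (1 + b) * (y - x / 2) ^ 2
    + ee * (1 - a * b) * ((x + y) / 2 + z) ^ 2 + kap a b * z ^ 2

/-- weighted sum of the energies of the three test fields -/
noncomputable def TE (w1 w2 w3 : ℝ → ℝ → ℝ) (x1 y1 x2 y2 x3 y3 : ℝ) : ℝ :=
  Lam * w1 (-(4 / 3) + ee + x1) (-(2 / 3) + y1) + Lam * w2 (-(2 / 3) + x2) (-(4 / 3) + ee + y2)
    + w3 (-ee + x3) (-ee + y3)

/-- the common constant -/
noncomputable def BB : ℝ := 2 * Lam * (4 / 3 - 2 * ee) + (2 * Lam + 1)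

/-- a phase sign -/
def IsSign (a : ℝ) : Prop := a = 1 ∨ a = -1

lemma ee_pos : 0 < ee := by unfold ee; norm_num

lemma Lam_pos : 0 < Lam := by unfold Lam; norm_num

lemma kap_bounds {a b : ℝ} (ha : IsSign a) (hb : IsSign b) :
    1 / 2 ≤ kap a b ∧ kap a b ≤ 1 := by
  unfold kap ee Lam
  rcases ha with rfl | rfl <;> rcases hb with rfl | rfl <;> constructor <;> norm_num

/-- error terms of third order -/
noncomputable def RR (a b x1 y1 x2 y2 x3 y3 : ℝ) : ℝ :=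
  ee * (Lam * ((1 + a) * (ee + x1 - y1 / 2) ^ 2 + (1 + b) * (y1 - (ee + x1) / 2) ^ 2
      + (1 - a * b) * ((ee + x1 + y1) / 2) ^ 2)
    + Lam * ((1 + a) * (x2 - (ee + y2) / 2) ^ 2 + (1 + b) * (ee + y2 - x2 / 2) ^ 2
      + (1 - a * b) * ((x2 + (ee + y2)) / 2) ^ 2)
    + ((1 + a) * (-ee + x3 - (-ee + y3) / 2) ^ 2 + (1 + b) * (-ee + y3 - (-ee + x3) / 2) ^ 2
      + (1 - a * b) * ((-ee + x3 + (-ee + y3)) / 2) ^ 2))

lemma TE_phase {a b : ℝ} (ha : IsSign a) (hb : IsSign b) (x1 y1 x2 y2 x3 y3 : ℝ) :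
    TE (fun x y => WW a b x y 1) (fun x y => WW a b x y 1) (fun x y => WW a b x y 1)
      x1 y1 x2 y2 x3 y3
    = BB + Low a b (a * b) 0 x1 y1 x2 y2 x3 y3 + RR a b x1 y1 x2 y2 x3 y3 := by
  have hL : 2 * Lam + 1 ≠ 0 := by unfold Lam; norm_num
  have hk : (2 * Lam + 1) * kap a b
      = (2 * Lam + 1) - ee * (1 - 2 * ee) * (Lam * (1 + a) + Lam * (1 + b) + (1 - a * b)) := by
    unfold kap; field_simp
  have hT : TE (fun x y => WW a b x y 1) (fun x y => WW a b x y 1) (fun x y => WW a b x y 1)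
      x1 y1 x2 y2 x3 y3 = (TE (fun x y => WW a b x y 1 - kap a b)
        (fun x y => WW a b x y 1 - kap a b) (fun x y => WW a b x y 1 - kap a b)
      x1 y1 x2 y2 x3 y3) + (2 * Lam + 1) * kap a b := by
    simp only [TE]; ring
  rw [hT, hk]
  rcases ha with rfl | rfl <;> rcases hb with rfl | rfl <;>
    · simp only [TE, WW, BB, Low, RR, NN]
      ring

lemma RR_nonneg {a b : ℝ} (ha : IsSign a) (hb : IsSign b) (x1 y1 x2 y2 x3 y3 : ℝ) :
    0 ≤ RR a b x1 y1 x2 y2 x3 y3 := by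
  have hE := ee_pos.le
  have hL := Lam_pos.le
  have h1 : 0 ≤ 1 + a := by rcases ha with rfl | rfl <;> norm_num
  have h2 : 0 ≤ 1 + b := by rcases hb with rfl | rfl <;> norm_num
  have h3 : 0 ≤ 1 - a * b := by
    rcases ha with rfl | rfl <;> rcases hb with rfl | rfl <;> norm_num
  unfold RR
  positivity

lemma low_le_phase {a b : ℝ} (ha : IsSign a) (hb : IsSign b) (x1 y1 x2 y2 x3 y3 : ℝ) :
    BB + Low a b (a * b) 0 x1 y1 x2 y2 x3 y3 ≤
    TE (fun x y => WW a b x y 1) (fun x y => WW a b x y 1) (fun x y => WW a b x y 1)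
      x1 y1 x2 y2 x3 y3 := by
  rw [TE_phase ha hb]
  have := RR_nonneg ha hb x1 y1 x2 y2 x3 y3
  linarith

lemma gg_phase {a b : ℝ} (ha : IsSign a) (hb : IsSign b) : 3 / 4 * gg a b (a * b) ≤ 0 := by
  unfold gg
  rcases ha with rfl | rfl <;> rcases hb with rfl | rfl <;> norm_num

lemma sign_abs {a : ℝ} (ha : IsSign a) : |a| ≤ 1 := by
  rcases ha with rfl | rfl <;> norm_num

lemma sign_mul_abs {a b : ℝ} (ha : IsSign a) (hb : IsSign b) : |a * b| ≤ 1 := by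
  rcases ha with rfl | rfl <;> rcases hb with rfl | rfl <;> norm_num

lemma pattern_point {a b D1 D2 t : ℝ} (ha : IsSign a) (hb : IsSign b) (h1 : |D1| ≤ 1)
    (h2 : |D2| ≤ 1) (ht : |t| ≤ 1) :
    TE (fun x y => WW a b x y 1) (fun x y => WW a b x y 1) (fun x y => WW a b x y 1)
      (ee * D1) 0 0 (ee * D2) (ee * t) (ee * t)
    ≤ BB + 600012 * ee ^ 3 + (- 2 * Lam * (ee * D1 + ee * D2)
    + Lam * ee ^ 2 * ((D1 - a) ^ 2 + (D2 - b) ^ 2) + ee ^ 2 * (t - a * b) ^ 2) := by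
  rw [TE_phase ha hb]
  have hE := ee_pos
  have hR : RR a b (ee * D1) 0 0 (ee * D2) (ee * t) (ee * t) ≤ 600012 * ee ^ 3 := by
    have e1 : RR a b (ee * D1) 0 0 (ee * D2) (ee * t) (ee * t)
        = ee ^ 3 * (25000 * ((1 + a) * (1 + D1) ^ 2 + (1 + b) * ((1 + D1) / 2) ^ 2
              + (1 - a * b) * ((1 + D1) / 2) ^ 2)
            + 25000 * ((1 + a) * ((1 + D2) / 2) ^ 2 + (1 + b) * (1 + D2) ^ 2
              + (1 - a * b) * ((1 + D2) / 2) ^ 2)
            + ((1 + a) * ((t - 1) / 2) ^ 2 + (1 + b) * ((t - 1) / 2) ^ 2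
              + (1 - a * b) * (t - 1) ^ 2)) := by
      unfold RR Lam; ring
    rw [e1, mul_comm (600012 : ℝ)]
    apply mul_le_mul_of_nonneg_left _ (by positivity)
    have q1 : (1 + D1) ^ 2 ≤ 4 := by
      rw [abs_le] at h1; nlinarith [h1.1, h1.2]
    have q2 : (1 + D2) ^ 2 ≤ 4 := by
      rw [abs_le] at h2; nlinarith [h2.1, h2.2]
    have q3 : (t - 1) ^ 2 ≤ 4 := by
      rw [abs_le] at ht; nlinarith [ht.1, ht.2]
    have p1 := sq_nonneg (1 + D1)
    have p2 := sq_nonneg (1 + D2)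
    have p3 := sq_nonneg (t - 1)
    rcases ha with rfl | rfl <;> rcases hb with rfl | rfl <;> nlinarith
  have e2 : Low a b (a * b) 0 (ee * D1) 0 0 (ee * D2) (ee * t) (ee * t)
      = - 2 * Lam * (ee * D1 + ee * D2)
    + Lam * ee ^ 2 * ((D1 - a) ^ 2 + (D2 - b) ^ 2) + ee ^ 2 * (t - a * b) ^ 2 := by
    unfold Low NN; ring
  rw [e2]
  linarith

lemma pattern_UB (c : ℝ) (h0 : 0 < c) (h1 : c < 1) (p : ℝ × ℝ) :
    TE (fun x y => WW (sg p.1) (sg p.2) x y 1) (fun x y => WW (sg p.1) (sg p.2) x y 1)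
      (fun x y => WW (sg p.1) (sg p.2) x y 1)
      (ee * DD c p.1) 0 0 (ee * DD c p.2) (ee * TT p) (ee * TT p)
    ≤ BB + 600012 * ee ^ 3 + UB c p := by
  have ht : |TT p| ≤ 1 := by
    unfold TT
    rw [abs_mul]
    have := abs_cos_le_one (2 * π * (p.1 + p.2))
    have h2 : |(-(81 / 100) : ℝ)| = 81 / 100 := by
      rw [abs_neg]; exact abs_of_pos (by norm_num)
    rw [h2]
    nlinarith [abs_nonneg (cos (2 * π * (p.1 + p.2)))]
  exact pattern_point (sg_eq p.1) (sg_eq p.2) (DD_abs_le h0 h1 _) (DD_abs_le h0 h1 _) ht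

/-- lower bound for all laminates versus upper bound for the pattern -/
lemma gap : BB + 600012 * ee ^ 3 + ee ^ 2 * (673 / 1000) + 1 / 10 ^ 21
    < BB + ee ^ 2 * (27900 / 40000) := by
  have h : 600012 * ee ^ 3 + ee ^ 2 * (673 / 1000) + 1 / 10 ^ 21
    < ee ^ 2 * (27900 / 40000) := by
    unfold ee; norm_num
  linarith

lemma low_root (r s w e : ℝ) (he : (3 / 4) * gg r s w ≤ e) :
    ee ^ 2 * (27900 / 40000) ≤ Low r s w e 0 0 0 0 0 0 := by
  have h := gg_root r s w e he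
  have e1 : Low r s w e 0 0 0 0 0 0 = ee ^ 2 * (Lam * r ^ 2 + Lam * s ^ 2 + w ^ 2 + e) := by
    unfold Low NN; ring
  rw [e1]
  exact mul_le_mul_of_nonneg_left h (sq_nonneg _)

end Pool.Agent.Lib.MP_2a9317_an
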