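import Pool.Agent.Lib.MP_2a9317_an.Aff

set_option autoImplicit false

namespace Pool.Agent.Lib.MP_2a9317_an

open MeasureTheory Matrix Real
open scoped ContDiff

/-! ### Test potentials -/

lemma grad_profile {n : ℕ} (g g' : ℝ → ℝ) (hg : ∀ x, HasDerivAt g (g' x) x)
    (l : ℝ × ℝ →L[ℝ] ℝ) (e : Fin n → ℝ) (p : ℝ × ℝ) :
    grad (fun p => g (l p) • e) p = fun q => g' (l p) * l (dir q.1) * e q.2 := by
  have h1 : HasFDerivAt (fun p : ℝ × ℝ => g (l p)) (g' (l p) • l) p :=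
    (hg (l p)).comp_hasFDerivAt p l.hasFDerivAt
  have h2 : HasFDerivAt (fun p : ℝ × ℝ => g (l p) • e) ((g' (l p) • l).smulRight e) p :=
    h1.smul_const e
  ext q
  simp only [grad]
  rw [h2.fderiv]
  simp

lemma potential_profile {n : ℕ} (g : ℝ → ℝ) (hg : ContDiff ℝ ∞ g) (hper : ∀ x, g (x + 1) = g x)
    (l : ℝ × ℝ →L[ℝ] ℝ) (h1 : l (1, 0) = 0 ∨ l (1, 0) = 1) (h2 : l (0, 1) = 0 ∨ l (0, 1) = 1)
    (e : Fin n → ℝ) : IsPotential (fun p => g (l p) • e) := by
  refine ⟨?_, fun x y => ⟨?_, ?_⟩⟩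
  · exact (hg.comp l.contDiff).smul contDiff_const
  · have : ((x + 1, y) : ℝ × ℝ) = (x, y) + (1, 0) := by simp
    rw [this]
    simp only [map_add]
    rcases h1 with h | h <;> rw [h]
    · rw [add_zero]
    · rw [hper]
  · have : ((x, y + 1) : ℝ × ℝ) = (x, y) + (0, 1) := by simp
    rw [this]
    simp only [map_add]
    rcases h2 with h | h <;> rw [h]
    · rw [add_zero]
    · rw [hper]

/-- third profile primitive -/
noncomputable def g3 (x : ℝ) : ℝ := ee * (-(81 / 100) * (sin (2 * π * x) / (2 * π)))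

lemma g3_deriv (x : ℝ) : HasDerivAt g3 (ee * (-(81 / 100) * cos (2 * π * x))) x :=
  ((hasDerivAt_sinA x).const_mul _).const_mul _

lemma g3_contDiff : ContDiff ℝ ∞ g3 := by
  unfold g3
  apply ContDiff.mul contDiff_const
  apply ContDiff.mul contDiff_const
  apply ContDiff.div_const
  fun_prop

lemma g3_per (x : ℝ) : g3 (x + 1) = g3 x := by unfold g3; rw [sin_per]

/-- the three linear forms -/
noncomputable def l1 : ℝ × ℝ →L[ℝ] ℝ := ContinuousLinearMap.fst ℝ ℝ ℝ
noncomputable def l2 : ℝ × ℝ →L[ℝ] ℝ := ContinuousLinearMap.snd ℝ ℝ ℝ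
noncomputable def l3 : ℝ × ℝ →L[ℝ] ℝ := l1 + l2

lemma l1_apply (p : ℝ × ℝ) : l1 p = p.1 := rfl
lemma l2_apply (p : ℝ × ℝ) : l2 p = p.2 := rfl
lemma l3_apply (p : ℝ × ℝ) : l3 p = p.1 + p.2 := rfl

section
variable {n : ℕ} (c : ℝ) (e : Fin n → ℝ)

/-- the three test potentials -/
noncomputable def u1 : ℝ × ℝ → Fin n → ℝ := fun p => (ee * PP c (l1 p)) • e
noncomputable def u2 : ℝ × ℝ → Fin n → ℝ := fun p => (ee * PP c (l2 p)) • e
noncomputable def u3 : ℝ × ℝ → Fin n → ℝ := fun p => g3 (l3 p) • e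

variable {c}
variable (h0 : 0 < c) (h1 : c < 1)
include h0 h1

lemma u1_pot : IsPotential (u1 c e) := by
  apply potential_profile (fun x => ee * PP c x) (contDiff_const.mul (PP_contDiff h0 h1))
    (fun x => by rw [PP_per]) l1
  · right; rfl
  · left; rfl

lemma u2_pot : IsPotential (u2 c e) := by
  apply potential_profile (fun x => ee * PP c x) (contDiff_const.mul (PP_contDiff h0 h1))
    (fun x => by rw [PP_per]) l2
  · left; rfl
  · right; rfl

omit h0 h1 in
lemma u3_pot : IsPotential (u3 e) := by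
  apply potential_profile g3 g3_contDiff g3_per l3
  · right; rw [l3_apply]; norm_num
  · right; rw [l3_apply]; norm_num

lemma u1_grad (p : ℝ × ℝ) : grad (u1 c e) p = tens ![ee * DD c p.1, 0] e := by
  have h := grad_profile (fun x => ee * PP c x) (fun x => ee * DD c x)
    (fun x => (PP_hasDerivAt h0 h1 x).const_mul ee) l1 e p
  unfold u1
  rw [h]
  ext ⟨i, j⟩
  fin_cases i <;> simp [tens, dir, l1_apply]

lemma u2_grad (p : ℝ × ℝ) : grad (u2 c e) p = tens ![0, ee * DD c p.2] e := by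
  have h := grad_profile (fun x => ee * PP c x) (fun x => ee * DD c x)
    (fun x => (PP_hasDerivAt h0 h1 x).const_mul ee) l2 e p
  unfold u2
  rw [h]
  ext ⟨i, j⟩
  fin_cases i <;> simp [tens, dir, l2_apply]

omit h0 h1 in
lemma u3_grad (p : ℝ × ℝ) : grad (u3 e) p = tens ![ee * TT p, ee * TT p] e := by
  have h := grad_profile g3 _ g3_deriv l3 e p
  unfold u3
  rw [h]
  ext ⟨i, j⟩
  fin_cases i <;> simp [tens, dir, l3_apply, TT]

end

end Pool.Agent.Lib.MP_2a9317_an
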